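import Mathlib

/-!
# The nine imaginary quadratic fields of class number one as subfields of `ℂ`

`t = (tr + √(tr ^ 2 - 4 nm)) / 2`, `K = ℚ + ℚ t`. The integers of `K` are `ℤ + ℤ t`, and `𝓞 K` is a
principal ideal domain: if `α ∤ β` then some combination `u β - v α` is not zero and smaller than
`α` (Dedekind, Hasse).
-/

set_option autoImplicit false

namespace Pool.Agent.Lib.MP_1a91b9_nuX.UF

open NumberField

noncomputable section

/-- The conditions on the trace and the norm of `t`. -/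
structure Good (tr nm : ℤ) (k : ℕ) : Prop where
  tr01 : tr = 0 ∨ tr = 1
  pos : 0 < 4 * nm - tr ^ 2
  sqf : (tr = 1 ∧ Squarefree (4 * nm - tr ^ 2)) ∨ (tr = 0 ∧ (nm = 1 ∨ nm = 2))
  kpos : 1 ≤ k
  bound : 4 * nm - tr ^ 2 < 3 * ((k : ℤ) + 1) ^ 2
  inert : ∀ p : ℕ, p.Prime → p ≤ k → ∀ x y : ℤ, (p : ℤ) ∣ x ^ 2 + tr * (x * y) + nm * y ^ 2 →
    (p : ℤ) ∣ x ∧ (p : ℤ) ∣ y

/-- the number `t` -/
def tt (tr nm : ℤ) : ℂ := ((tr : ℝ) / 2 : ℝ) + ((√((4 * nm - tr ^ 2 : ℤ) : ℝ) / 2 : ℝ) : ℂ) * Complex.I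

theorem tt_re (tr nm : ℤ) : (tt tr nm).re = (tr : ℝ) / 2 := by
  unfold tt
  simp

theorem tt_im (tr nm : ℤ) : (tt tr nm).im = √((4 * nm - tr ^ 2 : ℤ) : ℝ) / 2 := by
  unfold tt
  simp

variable {tr nm : ℤ}

theorem tt_im_ne (h : 0 < 4 * nm - tr ^ 2) : (tt tr nm).im ≠ 0 := by
  rw [tt_im]
  have h1 : (0 : ℝ) < ((4 * nm - tr ^ 2 : ℤ) : ℝ) := by exact_mod_cast h
  exact (div_pos (Real.sqrt_pos.mpr h1) two_pos).ne'

theorem tt_sq (h : 0 < 4 * nm - tr ^ 2) : tt tr nm ^ 2 = tr * tt tr nm - nm := by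
  have h1 : (0 : ℝ) ≤ ((4 * nm - tr ^ 2 : ℤ) : ℝ) := by exact_mod_cast h.le
  have h2 := Real.sq_sqrt h1
  apply Complex.ext
  · have e1 : (tt tr nm ^ 2).re = (tt tr nm).re ^ 2 - (tt tr nm).im ^ 2 := by
      rw [pow_two, Complex.mul_re]
      ring
    have e2 : ((tr : ℂ) * tt tr nm - nm).re = tr * (tt tr nm).re - nm := by
      rw [Complex.sub_re, Complex.mul_re, Complex.intCast_re, Complex.intCast_im,
        Complex.intCast_re]
      ring
    rw [e1, e2, tt_re, tt_im, div_pow, div_pow, h2]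
    push_cast
    ring
  · have e1 : (tt tr nm ^ 2).im = 2 * (tt tr nm).re * (tt tr nm).im := by
      rw [pow_two, Complex.mul_im]
      ring
    have e2 : ((tr : ℂ) * tt tr nm - nm).im = tr * (tt tr nm).im := by
      rw [Complex.sub_im, Complex.mul_im, Complex.intCast_re, Complex.intCast_im,
        Complex.intCast_im]
      ring
    rw [e1, e2, tt_re]
    ring

theorem normSq_tt (h : 0 < 4 * nm - tr ^ 2) (x y : ℝ) :
    Complex.normSq ((x : ℂ) + y * tt tr nm) = x ^ 2 + tr * (x * y) + nm * y ^ 2 := by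
  have h1 : (0 : ℝ) ≤ ((4 * nm - tr ^ 2 : ℤ) : ℝ) := by exact_mod_cast h.le
  have h2 := Real.sq_sqrt h1
  rw [Complex.normSq_apply]
  have e1 : ((x : ℂ) + y * tt tr nm).re = x + y * (tr / 2) := by
    rw [Complex.add_re, Complex.mul_re, Complex.ofReal_re, Complex.ofReal_re, Complex.ofReal_im,
      tt_re]
    ring
  have e2 : ((x : ℂ) + y * tt tr nm).im = y * (√((4 * nm - tr ^ 2 : ℤ) : ℝ) / 2) := by
    rw [Complex.add_im, Complex.mul_im, Complex.ofReal_im, Complex.ofReal_re, Complex.ofReal_im,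
      tt_im]
    ring
  rw [e1, e2]
  have e3 : y * (√((4 * nm - tr ^ 2 : ℤ) : ℝ) / 2) * (y * (√((4 * nm - tr ^ 2 : ℤ) : ℝ) / 2)) =
      y ^ 2 * (√((4 * nm - tr ^ 2 : ℤ) : ℝ)) ^ 2 / 4 := by ring
  rw [e3, h2]
  push_cast
  ring

theorem conj_tt : (starRingEnd ℂ) (tt tr nm) = tr - tt tr nm := by
  apply Complex.ext
  · rw [Complex.conj_re, Complex.sub_re, Complex.intCast_re, tt_re]
    ring
  · rw [Complex.conj_im, Complex.sub_im, Complex.intCast_im, zero_sub]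

/-- uniqueness of the coordinates -/
theorem coord_inj (h : 0 < 4 * nm - tr ^ 2) {x y x' y' : ℝ}
    (e : (x : ℂ) + y * tt tr nm = x' + y' * tt tr nm) : x = x' ∧ y = y' := by
  have him := congrArg Complex.im e
  have hre := congrArg Complex.re e
  rw [Complex.add_im, Complex.add_im, Complex.mul_im, Complex.mul_im, Complex.ofReal_im,
    Complex.ofReal_im, Complex.ofReal_im, Complex.ofReal_im, Complex.ofReal_re,
    Complex.ofReal_re] at him
  rw [Complex.add_re, Complex.add_re, Complex.mul_re, Complex.mul_re, Complex.ofReal_re,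
    Complex.ofReal_re, Complex.ofReal_re, Complex.ofReal_re, Complex.ofReal_im,
    Complex.ofReal_im] at hre
  have hy : y = y' := by
    apply mul_right_cancel₀ (tt_im_ne h)
    linear_combination him
  subst hy
  exact ⟨by linear_combination hre, rfl⟩

/-- the field `ℚ + ℚ t` -/
def KK (tr nm : ℤ) (h : 0 < 4 * nm - tr ^ 2) : IntermediateField ℚ ℂ where
  carrier := {z | ∃ x y : ℚ, z = (x : ℂ) + y * tt tr nm}
  mul_mem' := by
    rintro _ _ ⟨x, y, rfl⟩ ⟨x', y', rfl⟩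
    refine ⟨x * x' - nm * (y * y'), x * y' + y * x' + tr * (y * y'), ?_⟩
    push_cast
    linear_combination ((y : ℂ) * y') * tt_sq h
  one_mem' := ⟨1, 0, by simp⟩
  add_mem' := by
    rintro _ _ ⟨x, y, rfl⟩ ⟨x', y', rfl⟩
    refine ⟨x + x', y + y', ?_⟩
    push_cast
    ring
  zero_mem' := ⟨0, 0, by simp⟩
  algebraMap_mem' := by
    intro r
    refine ⟨r, 0, ?_⟩
    simp
  inv_mem' := by
    rintro _ ⟨x, y, rfl⟩
    by_cases h0 : ((x : ℂ) + y * tt tr nm) = 0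
    · refine ⟨0, 0, ?_⟩
      rw [h0]
      simp
    · obtain ⟨n, hn⟩ : ∃ n : ℚ, n = x ^ 2 + tr * (x * y) + nm * y ^ 2 := ⟨_, rfl⟩
      have h1 : ((x : ℂ) + y * tt tr nm) * ((x : ℂ) + y * (tr - tt tr nm)) = n := by
        rw [hn]
        push_cast
        linear_combination (-(y : ℂ) ^ 2) * tt_sq h
      have hn0 : (n : ℂ) ≠ 0 := by
        have h2 := Complex.mul_conj ((x : ℂ) + y * tt tr nm)
        have h3 : (starRingEnd ℂ) ((x : ℂ) + y * tt tr nm) = (x : ℂ) + y * (tr - tt tr nm) := by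
          rw [map_add, map_mul, conj_tt, map_ratCast, map_ratCast]
        rw [h3, h1] at h2
        rw [h2]
        have h4 := (Complex.normSq_pos.mpr h0).ne'
        exact_mod_cast h4
      refine ⟨(x + y * tr) / n, -y / n, ?_⟩
      apply inv_eq_of_mul_eq_one_right
      push_cast
      field_simp
      linear_combination h1

theorem mem_KK {h : 0 < 4 * nm - tr ^ 2} {z : ℂ} :
    z ∈ KK tr nm h ↔ ∃ x y : ℚ, z = (x : ℂ) + y * tt tr nm := Iff.rfl

instance finKK (h : 0 < 4 * nm - tr ^ 2) : FiniteDimensional ℚ (KK tr nm h) := by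
  let f : (ℚ × ℚ) →ₗ[ℚ] KK tr nm h :=
    { toFun := fun p => ⟨(p.1 : ℂ) + p.2 * tt tr nm, ⟨p.1, p.2, rfl⟩⟩
      map_add' := by
        intro p q
        apply Subtype.ext
        change (((p.1 + q.1 : ℚ)) : ℂ) + ((p.2 + q.2 : ℚ) : ℂ) * tt tr nm =
          ((p.1 : ℂ) + p.2 * tt tr nm) + ((q.1 : ℂ) + q.2 * tt tr nm)
        push_cast
        ring
      map_smul' := by
        intro c p
        apply Subtype.ext
        change (((c * p.1 : ℚ)) : ℂ) + ((c * p.2 : ℚ) : ℂ) * tt tr nm =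
          c • ((p.1 : ℂ) + p.2 * tt tr nm)
        rw [Algebra.smul_def, eq_ratCast]
        push_cast
        ring }
  refine Module.Finite.of_surjective f ?_
  rintro ⟨_, ⟨x, y, rfl⟩⟩
  exact ⟨(x, y), rfl⟩

instance nfKK (h : 0 < 4 * nm - tr ^ 2) : NumberField (KK tr nm h) where

/-- the integer `t` -/
def taK (tr nm : ℤ) (h : 0 < 4 * nm - tr ^ 2) : 𝓞 (KK tr nm h) :=
  ⟨⟨tt tr nm, ⟨0, 1, by simp⟩⟩, by
    refine ⟨Polynomial.X ^ 2 - Polynomial.C tr * Polynomial.X + Polynomial.C nm, ?_, ?_⟩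
    · monicity!
    · rw [Polynomial.eval₂_add, Polynomial.eval₂_sub, Polynomial.eval₂_mul,
        Polynomial.eval₂_X_pow, Polynomial.eval₂_C, Polynomial.eval₂_C, Polynomial.eval₂_X]
      apply Subtype.ext
      change tt tr nm ^ 2 - (algebraMap ℤ ℂ tr) * tt tr nm + algebraMap ℤ ℂ nm = 0
      rw [tt_sq h, algebraMap_int_eq]
      simp⟩

theorem taK_coe (h : 0 < 4 * nm - tr ^ 2) :
    ((taK tr nm h : KK tr nm h) : ℂ) = tt tr nm := rfl

/-! ### The ring of integers -/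

/-- the embedding of the ring of integers in `ℂ` -/
def fK (tr nm : ℤ) (h : 0 < 4 * nm - tr ^ 2) : 𝓞 (KK tr nm h) →+* ℂ :=
  ((KK tr nm h).val : KK tr nm h →ₐ[ℚ] ℂ).toRingHom.comp (algebraMap (𝓞 (KK tr nm h)) (KK tr nm h))

theorem fK_apply (h : 0 < 4 * nm - tr ^ 2) (a : 𝓞 (KK tr nm h)) :
    fK tr nm h a = ((a : KK tr nm h) : ℂ) := rfl

theorem fK_ta (h : 0 < 4 * nm - tr ^ 2) : fK tr nm h (taK tr nm h) = tt tr nm := rfl

theorem fK_inj (h : 0 < 4 * nm - tr ^ 2) : Function.Injective (fK tr nm h) :=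
  Subtype.val_injective.comp RingOfIntegers.coe_injective

theorem fK_coord (h : 0 < 4 * nm - tr ^ 2) (m n : ℤ) :
    fK tr nm h ((m : 𝓞 (KK tr nm h)) + (n : 𝓞 (KK tr nm h)) * taK tr nm h) =
      (m : ℂ) + n * tt tr nm := by
  rw [map_add, map_mul, map_intCast, map_intCast, fK_ta]

theorem int_of_integral {q : ℚ} (h : IsIntegral ℤ (q : ℂ)) : ∃ n : ℤ, q = n := by
  have h1 : IsIntegral ℤ (algebraMap ℚ ℂ q) := by
    rw [eq_ratCast]
    exact h
  rw [isIntegral_algebraMap_iff (algebraMap ℚ ℂ).injective] at h1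
  obtain ⟨n, hn⟩ := IsIntegrallyClosed.isIntegral_iff.mp h1
  exact ⟨n, by rw [← hn]; rfl⟩

theorem int_of_sqf {Δ k : ℤ} (hΔ : Squarefree Δ) {y : ℚ} (h : (Δ : ℚ) * y ^ 2 = k) :
    ∃ n : ℤ, y = n := by
  have h1 : (Δ : ℚ) * y.num ^ 2 = k * y.den ^ 2 := by
    have hd : (y.den : ℚ) ≠ 0 := by exact_mod_cast y.den_nz
    have h2 : y * y.den = y.num := Rat.mul_den_eq_num y
    rw [← h2, ← h]
    ring
  have h2 : Δ * y.num ^ 2 = k * (y.den : ℤ) ^ 2 := by exact_mod_cast h1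
  have h3 : IsCoprime ((y.den : ℤ) ^ 2) (y.num ^ 2) := by
    refine IsCoprime.pow ?_
    rw [Int.isCoprime_iff_gcd_eq_one]
    have h4 := y.reduced
    rw [Int.gcd_comm]
    exact h4
  have h4 : ((y.den : ℤ) ^ 2) ∣ Δ := h3.dvd_of_dvd_mul_right ⟨k, by rw [h2]; ring⟩
  rw [pow_two] at h4
  have h5 := hΔ _ h4
  rw [Int.isUnit_iff] at h5
  have h6 : y.den = 1 := by
    rcases h5 with h5 | h5 <;> omega
  exact ⟨y.num, (Rat.den_eq_one_iff y).mp h6 |>.symm⟩

theorem arith {k : ℕ} (hg : Good tr nm k) {x y : ℚ} {P Q : ℤ} (hP : 2 * x + y * tr = P)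
    (hQ : x ^ 2 + tr * (x * y) + nm * y ^ 2 = Q) : ∃ m n : ℤ, x = m ∧ y = n := by
  rcases hg.sqf with ⟨htr, hs⟩ | ⟨htr, hnm⟩
  · subst htr
    have h1 : ((4 * nm - 1 ^ 2 : ℤ) : ℚ) * y ^ 2 = ((4 * Q - P ^ 2 : ℤ) : ℚ) := by
      push_cast
      rw [← hP, ← hQ]
      push_cast
      ring
    obtain ⟨n, hn⟩ := int_of_sqf hs h1
    subst hn
    have h2 : (4 * nm - 1 ^ 2) * n ^ 2 = 4 * Q - P ^ 2 := by exact_mod_cast h1
    have h3 : ∃ m : ℤ, P - n = 2 * m := by
      rcases Int.even_or_odd' P with ⟨a, ha | ha⟩ <;> rcases Int.even_or_odd' n with ⟨b, hb | hb⟩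
      · exact ⟨a - b, by rw [ha, hb]; ring⟩
      · exfalso
        rw [ha, hb] at h2
        have h4 : 4 * ((4 * nm - 1) * (b ^ 2 + b) + nm - Q + a ^ 2) = 1 := by
          linear_combination h2
        omega
      · exfalso
        rw [ha, hb] at h2
        have h4 : 4 * (-((4 * nm - 1) * b ^ 2) + Q - a ^ 2 - a) = 1 := by
          linear_combination -h2
        omega
      · exact ⟨a - b, by rw [ha, hb]; ring⟩
    obtain ⟨m, hm⟩ := h3
    refine ⟨m, n, ?_, rfl⟩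
    have h4 : (P : ℚ) - n = 2 * m := by exact_mod_cast hm
    push_cast at hP
    linear_combination (hP + h4) / 2
  · subst htr
    obtain ⟨Y, hY⟩ : ∃ Y : ℤ, 2 * y = Y := by
      have h1 : ((nm : ℤ) : ℚ) * (2 * y) ^ 2 = ((4 * Q - P ^ 2 : ℤ) : ℚ) := by
        push_cast
        rw [← hP, ← hQ]
        push_cast
        ring
      have hs : Squarefree nm := by
        rcases hnm with rfl | rfl
        · exact squarefree_one
        · exact Int.prime_two.squarefree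
      obtain ⟨n, hn⟩ := int_of_sqf hs h1
      exact ⟨n, hn⟩
    have hP' : 2 * x = P := by
      rw [← hP]
      push_cast
      ring
    have h2 : P ^ 2 + nm * Y ^ 2 = 4 * Q := by
      have h3 : (P : ℚ) ^ 2 + nm * Y ^ 2 = 4 * Q := by
        rw [← hP', ← hY, ← hQ]
        push_cast
        ring
      exact_mod_cast h3
    have h3 : ∃ m n : ℤ, P = 2 * m ∧ Y = 2 * n := by
      rcases Int.even_or_odd' P with ⟨a, ha | ha⟩ <;> rcases Int.even_or_odd' Y with ⟨b, hb | hb⟩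
      · exact ⟨a, b, ha, hb⟩
      · exfalso
        rw [ha, hb] at h2
        have h4 : 4 * (Q - a ^ 2 - nm * (b ^ 2 + b)) = nm := by linear_combination -h2
        rcases hnm with rfl | rfl <;> omega
      · exfalso
        rw [ha, hb] at h2
        have h4 : 4 * (Q - a ^ 2 - a - nm * b ^ 2) = 1 := by linear_combination -h2
        omega
      · exfalso
        rw [ha, hb] at h2
        have h4 : 4 * (Q - a ^ 2 - a - nm * (b ^ 2 + b)) = 1 + nm := by linear_combination -h2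
        rcases hnm with rfl | rfl <;> omega
    obtain ⟨m, n, hm, hn⟩ := h3
    refine ⟨m, n, ?_, ?_⟩
    · have h4 : (P : ℚ) = 2 * m := by exact_mod_cast hm
      linear_combination (hP' + h4) / 2
    · have h4 : (Y : ℚ) = 2 * n := by exact_mod_cast hn
      linear_combination (hY + h4) / 2

theorem gen_KK {k : ℕ} (hg : Good tr nm k) (a : 𝓞 (KK tr nm hg.pos)) :
    ∃ m n : ℤ, a = (m : 𝓞 (KK tr nm hg.pos)) + (n : 𝓞 (KK tr nm hg.pos)) * taK tr nm hg.pos := by
  obtain ⟨z, hz⟩ : ∃ z : ℂ, z = ((a : KK tr nm hg.pos) : ℂ) := ⟨_, rfl⟩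
  obtain ⟨x, y, hxy⟩ := mem_KK.mp (a : KK tr nm hg.pos).2
  have hzi : IsIntegral ℤ z := by
    have h1 := (RingOfIntegers.isIntegral_coe a).algebraMap (B := ℂ)
    rw [hz]
    exact h1
  have hzc : IsIntegral ℤ ((starRingEnd ℂ) z) := hzi.map (starRingEnd ℂ).toIntAlgHom
  have hzxy : z = (x : ℂ) + y * tt tr nm := by rw [hz]; exact hxy
  have hconj : (starRingEnd ℂ) z = (x : ℂ) + y * (tr - tt tr nm) := by
    rw [hzxy, map_add, map_mul, conj_tt, map_ratCast, map_ratCast]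
  obtain ⟨P, hP⟩ : ∃ P : ℤ, 2 * x + y * tr = P := by
    refine int_of_integral ?_
    have h1 := hzi.add hzc
    rw [hconj, hzxy] at h1
    have h2 : ((2 * x + y * tr : ℚ) : ℂ) =
        (x : ℂ) + y * tt tr nm + ((x : ℂ) + y * (tr - tt tr nm)) := by
      push_cast
      ring
    rw [h2]
    exact h1
  obtain ⟨Q, hQ⟩ : ∃ Q : ℤ, x ^ 2 + tr * (x * y) + nm * y ^ 2 = Q := by
    refine int_of_integral ?_
    have h1 := hzi.mul hzc
    rw [hconj, hzxy] at h1
    have h2 : ((x ^ 2 + tr * (x * y) + nm * y ^ 2 : ℚ) : ℂ) =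
        ((x : ℂ) + y * tt tr nm) * ((x : ℂ) + y * (tr - tt tr nm)) := by
      push_cast
      linear_combination ((y : ℂ) ^ 2) * tt_sq hg.pos
    rw [h2]
    exact h1
  obtain ⟨m, n, hm, hn⟩ := arith hg hP hQ
  refine ⟨m, n, ?_⟩
  apply fK_inj hg.pos
  rw [fK_coord, fK_apply, hxy, hm, hn]
  push_cast
  rfl

/-! ### Principal ideals -/

theorem nsq (h : 0 < 4 * nm - tr ^ 2) (m n : ℤ) :
    Complex.normSq (fK tr nm h ((m : 𝓞 (KK tr nm h)) + (n : 𝓞 (KK tr nm h)) * taK tr nm h)) =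
      ((m ^ 2 + tr * (m * n) + nm * n ^ 2 : ℤ) : ℝ) := by
  rw [fK_coord]
  have h1 := normSq_tt h (m : ℝ) (n : ℝ)
  push_cast at h1 ⊢
  exact h1

theorem dh_aux {k : ℕ} (hg : Good tr nm k) (j : ℕ) (hj1 : 1 ≤ j) (hjk : j ≤ k)
    (α β : 𝓞 (KK tr nm hg.pos)) (hα : α ≠ 0) (hnd : ¬ α ∣ β)
    (hdj : α ∣ (j : 𝓞 (KK tr nm hg.pos)) * β) :
    ∃ u v : 𝓞 (KK tr nm hg.pos), u * β - v * α ≠ 0 ∧
      Complex.normSq (fK tr nm hg.pos (u * β - v * α)) <
        Complex.normSq (fK tr nm hg.pos α) := by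
  induction j using Nat.strong_induction_on with
  | _ j ih =>
    obtain ⟨f, hf⟩ : ∃ f, f = fK tr nm hg.pos := ⟨_, rfl⟩
    rcases Nat.eq_or_lt_of_le hj1 with h1 | h1
    · exfalso
      apply hnd
      rw [← h1, Nat.cast_one, one_mul] at hdj
      exact hdj
    · obtain ⟨p, hp⟩ : ∃ p, p = j.minFac := ⟨_, rfl⟩
      have hpp : p.Prime := by rw [hp]; exact Nat.minFac_prime (by omega)
      obtain ⟨j', hj'⟩ : p ∣ j := by rw [hp]; exact Nat.minFac_dvd j
      have hp2 := hpp.two_le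
      have hj'1 : 1 ≤ j' := by
        rcases Nat.eq_zero_or_pos j' with h2 | h2
        · rw [h2, mul_zero] at hj'
          omega
        · exact h2
      have hj'lt : j' < j := by
        rw [hj']
        nlinarith
      have hpk : p ≤ k := by
        have h2 : p ≤ j := by
          rw [hj']
          nlinarith
        omega
      by_cases hcase : α ∣ (j' : 𝓞 (KK tr nm hg.pos)) * β
      · exact ih j' hj'lt hj'1 (by omega) hcase
      · obtain ⟨w, hw⟩ := hdj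
        obtain ⟨m, n, hmn⟩ := gen_KK hg w
        have hpw : (p : 𝓞 (KK tr nm hg.pos)) * ((j' : 𝓞 (KK tr nm hg.pos)) * β) = w * α := by
          rw [← mul_assoc, ← Nat.cast_mul, ← hj', hw, mul_comm]
        obtain ⟨Nw, hNw⟩ : ∃ Nw : ℤ, Nw = m ^ 2 + tr * (m * n) + nm * n ^ 2 := ⟨_, rfl⟩
        have hpN : ¬ (p : ℤ) ∣ Nw := by
          intro hd
          rw [hNw] at hd
          obtain ⟨⟨m', hm'⟩, ⟨n', hn'⟩⟩ := hg.inert p hpp hpk m n hd
          apply hcase
          have h2 : (p : 𝓞 (KK tr nm hg.pos)) * ((j' : 𝓞 (KK tr nm hg.pos)) * β) =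
              (p : 𝓞 (KK tr nm hg.pos)) * (((m' : 𝓞 (KK tr nm hg.pos)) +
                (n' : 𝓞 (KK tr nm hg.pos)) * taK tr nm hg.pos) * α) := by
            rw [hpw, hmn, hm', hn']
            push_cast
            ring
          have h3 : (p : 𝓞 (KK tr nm hg.pos)) ≠ 0 := by
            exact_mod_cast hpp.ne_zero
          have h4 := mul_left_cancel₀ h3 h2
          exact ⟨_, by rw [h4, mul_comm]⟩
        -- the conjugate
        obtain ⟨wb, hwb⟩ : ∃ wb : 𝓞 (KK tr nm hg.pos), wb = ((m + tr * n : ℤ) :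
            𝓞 (KK tr nm hg.pos)) + ((-n : ℤ) : 𝓞 (KK tr nm hg.pos)) * taK tr nm hg.pos := ⟨_, rfl⟩
        have hww : wb * w = (Nw : 𝓞 (KK tr nm hg.pos)) := by
          apply fK_inj hg.pos
          rw [map_mul, hwb, hmn, fK_coord, fK_coord, map_intCast, hNw]
          push_cast
          linear_combination (-(n : ℂ) ^ 2) * tt_sq hg.pos
        obtain ⟨q, hq⟩ : ∃ q, q = Nw / p := ⟨_, rfl⟩
        obtain ⟨r, hr⟩ : ∃ r, r = Nw % p := ⟨_, rfl⟩
        have hqr : (p : ℤ) * q + r = Nw := by rw [hq, hr]; exact Int.mul_ediv_add_emod Nw p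
        have hp0 : (0 : ℤ) < p := by exact_mod_cast hpp.pos
        have hr0 : 0 ≤ r := by rw [hr]; exact Int.emod_nonneg _ hp0.ne'
        have hrp : r < p := by rw [hr]; exact Int.emod_lt_of_pos _ hp0
        have hrne : r ≠ 0 := by
          intro h0
          apply hpN
          exact ⟨q, by rw [← hqr, h0, add_zero]⟩
        refine ⟨wb * j', (q : 𝓞 (KK tr nm hg.pos)), ?_⟩
        have hkey : (p : 𝓞 (KK tr nm hg.pos)) * (wb * j' * β - (q : 𝓞 (KK tr nm hg.pos)) * α) =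
            (r : 𝓞 (KK tr nm hg.pos)) * α := by
          have h2 : (Nw : 𝓞 (KK tr nm hg.pos)) = (p : 𝓞 (KK tr nm hg.pos)) * q + r := by
            rw [← hqr]
            push_cast
            ring
          have h3 : (p : 𝓞 (KK tr nm hg.pos)) * (wb * j' * β - (q : 𝓞 (KK tr nm hg.pos)) * α) =
              wb * ((p : 𝓞 (KK tr nm hg.pos)) * ((j' : 𝓞 (KK tr nm hg.pos)) * β)) -
                (p : 𝓞 (KK tr nm hg.pos)) * q * α := by ring
          rw [h3, hpw, ← mul_assoc, hww, h2]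
          ring
        have hns := congrArg (fun x => Complex.normSq (fK tr nm hg.pos x)) hkey
        simp only [map_mul, map_natCast, map_intCast] at hns
        have hpc : Complex.normSq (p : ℂ) = (p : ℝ) ^ 2 := by
          rw [Complex.normSq_natCast, pow_two]
        have hrc : Complex.normSq (r : ℂ) = (r : ℝ) ^ 2 := by
          rw [Complex.normSq_intCast, pow_two]
        rw [hpc, hrc] at hns
        have hα' : 0 < Complex.normSq (fK tr nm hg.pos α) := by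
          refine Complex.normSq_pos.mpr fun h0 => hα ?_
          exact fK_inj hg.pos (by rw [h0, map_zero])
        have hpR : (0 : ℝ) < (p : ℝ) ^ 2 := by
          have : (0 : ℝ) < p := by exact_mod_cast hpp.pos
          positivity
        have hrR : (0 : ℝ) < (r : ℝ) ^ 2 := by
          have : (r : ℝ) ≠ 0 := by exact_mod_cast hrne
          positivity
        have hrpR : (r : ℝ) ^ 2 < (p : ℝ) ^ 2 := by
          have h2 : (r : ℝ) < p := by exact_mod_cast hrp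
          have h3 : (0 : ℝ) ≤ r := by exact_mod_cast hr0
          exact pow_lt_pow_left₀ h2 h3 two_ne_zero
        constructor
        · intro h0
          rw [h0, mul_zero] at hkey
          have h2 : (r : 𝓞 (KK tr nm hg.pos)) ≠ 0 := by exact_mod_cast hrne
          exact mul_ne_zero h2 hα hkey.symm
        · obtain ⟨X, hX⟩ : ∃ X, X = Complex.normSq (fK tr nm hg.pos
              (wb * j' * β - (q : 𝓞 (KK tr nm hg.pos)) * α)) := ⟨_, rfl⟩
          have hns' : (p : ℝ) ^ 2 * X = (r : ℝ) ^ 2 * Complex.normSq (fK tr nm hg.pos α) := by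
            rw [hX]
            exact hns
          rw [← hX]
          by_contra hcon
          rw [not_lt] at hcon
          nlinarith

theorem dh {k : ℕ} (hg : Good tr nm k) (α β : 𝓞 (KK tr nm hg.pos)) (hα : α ≠ 0)
    (hnd : ¬ α ∣ β) :
    ∃ u v : 𝓞 (KK tr nm hg.pos), u * β - v * α ≠ 0 ∧
      Complex.normSq (fK tr nm hg.pos (u * β - v * α)) <
        Complex.normSq (fK tr nm hg.pos α) := by
  have hα0 : fK tr nm hg.pos α ≠ 0 := fun h0 => hα (fK_inj hg.pos (by rw [h0, map_zero]))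
  have hα' : 0 < Complex.normSq (fK tr nm hg.pos α) := Complex.normSq_pos.mpr hα0
  -- coordinates of the quotient
  obtain ⟨X, Y, hXY⟩ : ∃ X Y : ℚ, fK tr nm hg.pos β = ((X : ℂ) + Y * tt tr nm) *
      fK tr nm hg.pos α := by
    obtain ⟨X, Y, h1⟩ := mem_KK.mp ((β : KK tr nm hg.pos) / (α : KK tr nm hg.pos)).2
    refine ⟨X, Y, ?_⟩
    rw [← h1]
    change ((β : KK tr nm hg.pos) : ℂ) =
      ((β : KK tr nm hg.pos) : ℂ) / ((α : KK tr nm hg.pos) : ℂ) * ((α : KK tr nm hg.pos) : ℂ)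
    rw [div_mul_cancel₀]
    exact hα0
  obtain ⟨n, i, hi0, hik, hni⟩ := Real.exists_int_int_abs_mul_sub_le (Y : ℝ)
    (n := k) (by have := hg.kpos; omega)
  obtain ⟨i', rfl⟩ : ∃ i' : ℕ, i = i' := ⟨i.toNat, by omega⟩
  obtain ⟨y, hy⟩ : ∃ y : ℝ, y = (i' : ℤ) * (Y : ℝ) - n := ⟨_, rfl⟩
  rw [← hy] at hni
  obtain ⟨m, hm⟩ : ∃ m : ℤ, m = round ((i' : ℤ) * (X : ℝ) + tr / 2 * y) := ⟨_, rfl⟩
  obtain ⟨x, hx⟩ : ∃ x : ℝ, x = (i' : ℤ) * (X : ℝ) - m := ⟨_, rfl⟩
  have hround : |x + tr / 2 * y| ≤ 1 / 2 := by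
    have h1 := abs_sub_round ((i' : ℤ) * (X : ℝ) + tr / 2 * y)
    rw [← hm] at h1
    have h2 : x + tr / 2 * y = (i' : ℤ) * (X : ℝ) + tr / 2 * y - m := by rw [hx]; ring
    rw [h2]
    exact h1
  obtain ⟨v, hv⟩ : ∃ v : 𝓞 (KK tr nm hg.pos), v = (m : 𝓞 (KK tr nm hg.pos)) +
    (n : 𝓞 (KK tr nm hg.pos)) * taK tr nm hg.pos := ⟨_, rfl⟩
  have hdiff : fK tr nm hg.pos ((i' : 𝓞 (KK tr nm hg.pos)) * β - v * α) =
      ((x : ℂ) + y * tt tr nm) * fK tr nm hg.pos α := by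
    rw [map_sub, map_mul, map_mul, map_natCast, hv, fK_coord, hXY, hx, hy]
    push_cast
    ring
  by_cases h0 : (i' : 𝓞 (KK tr nm hg.pos)) * β - v * α = 0
  · refine dh_aux hg i' (by omega) (by omega) α β hα hnd ?_
    exact ⟨v, by rw [sub_eq_zero.mp h0, mul_comm]⟩
  · refine ⟨i', v, h0, ?_⟩
    rw [hdiff, map_mul, normSq_tt hg.pos]
    have hk1 : (0 : ℝ) < (k : ℝ) + 1 := by positivity
    have hΔ : ((4 * nm - tr ^ 2 : ℤ) : ℝ) < 3 * ((k : ℝ) + 1) ^ 2 := by
      have h1 := hg.bound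
      have h2 : ((4 * nm - tr ^ 2 : ℤ) : ℝ) < ((3 * ((k : ℤ) + 1) ^ 2 : ℤ) : ℝ) := by
        exact_mod_cast h1
      push_cast at h2 ⊢
      exact h2
    have hy2 : y ^ 2 * ((k : ℝ) + 1) ^ 2 ≤ 1 := by
      have h1 : |y| * ((k : ℝ) + 1) ≤ 1 := by
        rw [le_div_iff₀ hk1] at hni
        exact hni
      have h2 : 0 ≤ |y| * ((k : ℝ) + 1) := by positivity
      have h3 : (|y| * ((k : ℝ) + 1)) ^ 2 ≤ 1 := pow_le_one₀ h2 h1
      rw [mul_pow, sq_abs] at h3
      exact h3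
    have hx2 : (x + tr / 2 * y) ^ 2 ≤ 1 / 4 := by
      have h1 := sq_le_sq' (abs_le.mp hround).1 (abs_le.mp hround).2
      linarith
    have hlt : x ^ 2 + tr * (x * y) + nm * y ^ 2 < 1 := by
      have h1 : x ^ 2 + tr * (x * y) + nm * y ^ 2 =
          (x + tr / 2 * y) ^ 2 + ((4 * nm - tr ^ 2 : ℤ) : ℝ) * y ^ 2 / 4 := by
        push_cast
        ring
      rw [h1]
      have h2 : ((4 * nm - tr ^ 2 : ℤ) : ℝ) * y ^ 2 < 3 := by
        rcases eq_or_ne y 0 with h3 | h3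
        · rw [h3]
          norm_num
        · have h4 : 0 < y ^ 2 := by positivity
          nlinarith
      linarith
    calc (x ^ 2 + tr * (x * y) + nm * y ^ 2) * Complex.normSq (fK tr nm hg.pos α)
        < 1 * Complex.normSq (fK tr nm hg.pos α) := mul_lt_mul_of_pos_right hlt hα'
      _ = _ := one_mul _

theorem pid_KK {k : ℕ} (hg : Good tr nm k) : IsPrincipalIdealRing (𝓞 (KK tr nm hg.pos)) := by
  classical
  refine ⟨fun I => ?_⟩
  by_cases hI : I = ⊥
  · exact ⟨⟨0, by rw [hI]; simp⟩⟩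
  obtain ⟨a0, ha0, ha0'⟩ := Submodule.exists_mem_ne_zero_of_ne_bot hI
  have hint : ∀ a : 𝓞 (KK tr nm hg.pos), ∃ N : ℕ,
      (N : ℝ) = Complex.normSq (fK tr nm hg.pos a) := by
    intro a
    obtain ⟨m, n, hmn⟩ := gen_KK hg a
    have h1 := nsq hg.pos m n
    rw [← hmn] at h1
    have h2 : 0 ≤ m ^ 2 + tr * (m * n) + nm * n ^ 2 := by
      have h3 := Complex.normSq_nonneg (fK tr nm hg.pos a)
      rw [h1] at h3
      exact_mod_cast h3
    refine ⟨(m ^ 2 + tr * (m * n) + nm * n ^ 2).toNat, ?_⟩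
    rw [h1]
    exact_mod_cast Int.toNat_of_nonneg h2
  have hex : ∃ N : ℕ, ∃ a ∈ I, a ≠ 0 ∧ (N : ℝ) = Complex.normSq (fK tr nm hg.pos a) := by
    obtain ⟨N, hN⟩ := hint a0
    exact ⟨N, a0, ha0, ha0', hN⟩
  obtain ⟨α, hαI, hα0, hαN⟩ := Nat.find_spec hex
  refine ⟨⟨α, ?_⟩⟩
  apply le_antisymm
  · intro β hβ
    change β ∈ Ideal.span {α}
    rw [Ideal.mem_span_singleton]
    by_contra hnd
    obtain ⟨u, v, huv, hlt⟩ := dh hg α β hα0 hnd
    obtain ⟨M, hM⟩ := hint (u * β - v * α)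
    have h1 : M < Nat.find hex := by
      rw [← hM, ← hαN] at hlt
      exact_mod_cast hlt
    exact Nat.find_min hex h1 ⟨u * β - v * α,
      I.sub_mem (I.mul_mem_left u hβ) (I.mul_mem_left v hαI), huv, hM⟩
  · change Ideal.span {α} ≤ I
    rw [Ideal.span_singleton_le_iff_mem]
    exact hαI

end

end Pool.Agent.Lib.MP_1a91b9_nuX.UF
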