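import Pool.Agent.Lib.MP_1a91b9_nuT.Base

/-!
# A lattice stable under the multiplication by `ta` is homothetic to `𝓞 K`

`K` has class number one, `𝓞 K = ℤ + ℤ ta`. A lattice `L` in `ℂ` with `ta L ≤ L` is
`Om * emb (𝓞 K)`, so `G_k (ℤ + ℤ ta) = Om ^ k G_k (L)`.
-/

set_option autoImplicit false

namespace Pool.Agent.Lib.MP_1a91b9_nuX.UF

open NumberField Pool.Agent.Lib.MP_1a91b9_nuT

noncomputable section

theorem mem_mkPP {t : ℂ} {h : t.im ≠ 0} {x : ℂ} :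
    x ∈ (mkPP t h).lattice ↔ ∃ m n : ℤ, (m : ℂ) + n * t = x := by
  rw [PeriodPair.mem_lattice]
  constructor
  · rintro ⟨m, n, h⟩
    exact ⟨m, n, by rw [← h]; show _ = (m : ℂ) * 1 + n * t; ring⟩
  · rintro ⟨m, n, h⟩
    exact ⟨m, n, by rw [← h]; show (m : ℂ) * 1 + n * t = _; ring⟩

/-- Homothetic lattices. -/
theorem G_scale {L M : PeriodPair} {Om : ℂ} (hOm : Om ≠ 0)
    (h : ∀ x, x ∈ L.lattice ↔ ∃ y ∈ M.lattice, x = Om * y) (k : ℕ) :
    M.G k = Om ^ k * L.G k := by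
  unfold PeriodPair.G
  let e : M.lattice ≃ L.lattice :=
    { toFun := fun y => ⟨Om * y.1, (h _).mpr ⟨y.1, y.2, rfl⟩⟩
      invFun := fun x => ⟨Om⁻¹ * x.1, by
        obtain ⟨y, hy, hxy⟩ := (h _).mp x.2
        rw [hxy, inv_mul_cancel_left₀ hOm]
        exact hy⟩
      left_inv := fun y => Subtype.ext (inv_mul_cancel_left₀ hOm y.1)
      right_inv := fun x => Subtype.ext (mul_inv_cancel_left₀ hOm x.1) }
  rw [← e.tsum_eq, ← tsum_mul_left]
  refine tsum_congr fun y => ?_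
  change ((y : ℂ) ^ k)⁻¹ = Om ^ k * ((Om * (y : ℂ)) ^ k)⁻¹
  rw [mul_pow, mul_inv, mul_inv_cancel_left₀ (pow_ne_zero k hOm)]

variable {K : Type} [Field K] [NumberField K] [IsPrincipalIdealRing (𝓞 K)]
  (emb : K →ₐ[ℚ] ℂ) {ta : 𝓞 K} (gen : ∀ a : 𝓞 K, ∃ m n : ℤ, a = (m : 𝓞 K) + (n : 𝓞 K) * ta)
  (im : (emb (ta : K)).im ≠ 0) {L : PeriodPair}
  (hL : ∀ l ∈ L.lattice, emb (ta : K) * l ∈ L.lattice)

include gen im hL

theorem exists_homothety : ∃ Om : ℂ, Om ≠ 0 ∧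
    ∀ x, x ∈ L.lattice ↔ ∃ y ∈ (mkPP (emb (ta : K)) im).lattice, x = Om * y := by
  obtain ⟨t, ht⟩ : ∃ t, t = emb (ta : K) := ⟨_, rfl⟩
  have himt : t.im ≠ 0 := by rw [ht]; exact im
  -- the embedding of `𝓞 K`
  let f : 𝓞 K →+* ℂ := emb.toRingHom.comp (algebraMap (𝓞 K) K)
  have hf : ∀ a : 𝓞 K, f a = emb (a : K) := fun a => rfl
  have hft : f ta = t := ht.symm
  have hfinj : Function.Injective f := emb.toRingHom.injective.comp RingOfIntegers.coe_injective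
  have hmul : ∀ (a : 𝓞 K) (l : ℂ), l ∈ L.lattice → f a * l ∈ L.lattice := by
    intro a l hl
    obtain ⟨m, n, rfl⟩ := gen a
    have h1 : f ((m : 𝓞 K) + (n : 𝓞 K) * ta) * l = m • l + n • (t * l) := by
      rw [map_add, map_mul, map_intCast, map_intCast, hft, zsmul_eq_mul, zsmul_eq_mul]
      ring
    rw [h1]
    exact L.lattice.add_mem (L.lattice.smul_mem _ hl)
      (L.lattice.smul_mem _ (by rw [ht]; exact hL l hl))
  -- `t ω₁ = p ω₁ + q ω₂`
  obtain ⟨p, q, hpq⟩ := PeriodPair.mem_lattice.mp (hmul ta L.ω₁ L.ω₁_mem_lattice)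
  rw [hft] at hpq
  have hω : L.ω₁ ≠ 0 := by
    have h1 := L.indep.ne_zero 0
    simpa using h1
  have hq : q ≠ 0 := by
    rintro rfl
    rw [Int.cast_zero, zero_mul, add_zero] at hpq
    have h1 : t = p := (mul_right_cancel₀ hω hpq).symm
    apply himt
    rw [h1, Complex.intCast_im]
  have hqC : (q : ℂ) ≠ 0 := by exact_mod_cast hq
  obtain ⟨ω, hωd⟩ : ∃ ω, ω = L.ω₁ / q := ⟨_, rfl⟩
  have hω0 : ω ≠ 0 := by
    rw [hωd]
    exact div_ne_zero hω hqC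
  have hω1 : L.ω₁ = f (q : 𝓞 K) * ω := by
    rw [map_intCast, hωd, mul_div_cancel₀ _ hqC]
  have hω2 : L.ω₂ = f (ta - (p : 𝓞 K)) * ω := by
    rw [map_sub, map_intCast, hft, hωd]
    field_simp
    linear_combination hpq
  -- the ideal
  let I : Ideal (𝓞 K) :=
    { carrier := {a | f a * ω ∈ L.lattice}
      add_mem' := by
        intro a b ha hb
        change f (a + b) * ω ∈ L.lattice
        rw [map_add, add_mul]
        exact L.lattice.add_mem ha hb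
      zero_mem' := by
        change f 0 * ω ∈ L.lattice
        rw [map_zero, zero_mul]
        exact L.lattice.zero_mem
      smul_mem' := by
        intro c a ha
        change f (c * a) * ω ∈ L.lattice
        rw [map_mul, mul_assoc]
        exact hmul c _ ha }
  have hI : ∀ a : 𝓞 K, a ∈ I ↔ f a * ω ∈ L.lattice := fun a => Iff.rfl
  obtain ⟨α, hα⟩ := (IsPrincipalIdealRing.principal I).principal
  have hmemI : ∀ a, a ∈ I ↔ ∃ b, a = b * α := by
    intro a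
    rw [hα]
    change a ∈ Ideal.span {α} ↔ _
    rw [Ideal.mem_span_singleton']
    exact ⟨fun ⟨b, hb⟩ => ⟨b, hb.symm⟩, fun ⟨b, hb⟩ => ⟨b, hb.symm⟩⟩
  have hall : ∀ x, x ∈ L.lattice ↔ ∃ a ∈ I, x = f a * ω := by
    intro x
    constructor
    · intro hx
      obtain ⟨m, n, hmn⟩ := PeriodPair.mem_lattice.mp hx
      have h1 : x = f ((m : 𝓞 K) * (q : 𝓞 K) + (n : 𝓞 K) * (ta - (p : 𝓞 K))) * ω := by
        rw [map_add, map_mul, map_mul, map_intCast f m, map_intCast f n, add_mul, mul_assoc,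
          mul_assoc, ← hω1, ← hω2, hmn]
      refine ⟨_, ?_, h1⟩
      rw [hI, ← h1]
      exact hx
    · rintro ⟨a, ha, rfl⟩
      exact ha
  have hα0 : f α ≠ 0 := by
    intro h0
    have h1 : (q : 𝓞 K) ∈ I := by
      rw [hI, ← hω1]
      exact L.ω₁_mem_lattice
    obtain ⟨b, hb⟩ := (hmemI _).mp h1
    have h2 : f (q : 𝓞 K) = 0 := by rw [hb, map_mul, h0, mul_zero]
    rw [map_intCast] at h2
    exact hqC h2
  refine ⟨f α * ω, mul_ne_zero hα0 hω0, fun x => ?_⟩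
  rw [hall]
  constructor
  · rintro ⟨a, ha, rfl⟩
    obtain ⟨b, rfl⟩ := (hmemI a).mp ha
    refine ⟨f b, ?_, by rw [map_mul]; ring⟩
    obtain ⟨m, n, rfl⟩ := gen b
    rw [mem_mkPP]
    exact ⟨m, n, by rw [map_add, map_mul, map_intCast, map_intCast]; rfl⟩
  · rintro ⟨y, hy, rfl⟩
    obtain ⟨m, n, rfl⟩ := mem_mkPP.mp hy
    refine ⟨((m : 𝓞 K) + (n : 𝓞 K) * ta) * α, (hmemI _).mpr ⟨_, rfl⟩, ?_⟩
    rw [map_mul, map_add, map_mul, map_intCast, map_intCast, hft, ht]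
    ring

/-- The period of the curve `y² = x³ + A x + B` of a stable lattice. -/
theorem exists_Om {A B : ℂ} (hg2 : L.g₂ = -4 * A) (hg3 : L.g₃ = -4 * B) :
    ∃ Om : ℂ, Om ≠ 0 ∧ (mkPP (emb (ta : K)) im).g₂ = -4 * A * Om ^ 4 ∧
      (mkPP (emb (ta : K)) im).g₃ = -4 * B * Om ^ 6 := by
  obtain ⟨Om, hOm, h⟩ := exists_homothety emb gen im hL
  refine ⟨Om, hOm, ?_, ?_⟩
  · have h1 := G_scale hOm h 4
    unfold PeriodPair.g₂ at hg2 ⊢
    rw [h1]
    linear_combination (Om ^ 4) * hg2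
  · have h1 := G_scale hOm h 6
    unfold PeriodPair.g₃ at hg3 ⊢
    rw [h1]
    linear_combination (Om ^ 6) * hg3

end

end Pool.Agent.Lib.MP_1a91b9_nuX.UF
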