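import Pool.Agent.Lib.MP_1a91b9_nuX.UF.Pol

/-!
# The multiplication by `t`, discriminant `-11`

`t ^ 2 = 1 t - 3`, the curve `y ^ 2 = x ^ 3 + (-264) x + (1694)`.
-/

set_option autoImplicit false

namespace Pool.Agent.Lib.MP_1a91b9_nuX.UF

/-- the numerator is `Na11 + t Nb11` -/
def Na11 : List ℤ :=
  [-2200, 396, -24, 1]

/-- the numerator is `Na11 + t Nb11` -/
def Nb11 : List ℤ :=
  [2464, -308, 4, 0]

/-- the denominator is `Da11 + t Db11` -/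
def Da11 : List ℤ :=
  [-264, 60, -3]

/-- the denominator is `Da11 + t Db11` -/
def Db11 : List ℤ :=
  [220, -32, 1]

private theorem c11_0 : chk 1 3 (-264) 1694 Na11 Nb11 Da11 Db11 0 12 = true := by
  decide +kernel

private theorem all11 (j : ℕ) (hj : j < 12) :
    eqnAt 1 3 (-264) 1694 Na11 Nb11 Da11 Db11 ((j : ℕ) : ℤ) = true := by
  exact chk_mem c11_0 j (by omega) (by omega)

theorem stable11 {t : ℂ} (ht : t ^ 2 = (1 : ℤ) * t - (3 : ℤ)) (ht0 : t ≠ 0) {L : PeriodPair}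
    (hg2 : L.g₂ = -4 * ((-264 : ℤ) : ℂ)) (hg3 : L.g₃ = -4 * ((1694 : ℤ) : ℂ)) (l : ℂ)
    (hl : l ∈ L.lattice) : t * l ∈ L.lattice := by
  obtain ⟨h1, h2, h3, h4⟩ := data_ok (A := -264) (B := 1694) (N₀ := Na11) (N₁ := Nb11)
    (D₀ := Da11) (D₁ := Db11) (m := 2) ht (by norm_num) ht0 rfl rfl rfl rfl rfl rfl rfl rfl
    (fun j hj => all11 j hj)
  exact stable ht0 hg2 hg3 h1 h2 h3 h4 l hl

end Pool.Agent.Lib.MP_1a91b9_nuX.UF
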