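import Pool.Agent.Lib.MP_1a91b9_nuX.UF.Pol

/-!
# The multiplication by `t`, discriminant `-19`

`t ^ 2 = 1 t - 5`, the curve `y ^ 2 = x ^ 3 + (-152) x + (722)`.
-/

set_option autoImplicit false

namespace Pool.Agent.Lib.MP_1a91b9_nuX.UF

/-- the numerator is `Na19 + t Nb19` -/
def Na19 : List ℤ :=
  [-173280, 86640, -15200, 1140, -40, 1]

/-- the numerator is `Na19 + t Nb19` -/
def Nb19 : List ℤ :=
  [127072, -51984, 7296, -380, 4, 0]

/-- the denominator is `Da19 + t Db19` -/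
def Da19 : List ℤ :=
  [-23104, 12160, -2280, 180, -5]

/-- the denominator is `Da19 + t Db19` -/
def Db19 : List ℤ :=
  [17328, -6992, 988, -56, 1]

private theorem c19_0 : chk 1 5 (-152) 722 Na19 Nb19 Da19 Db19 0 20 = true := by
  decide +kernel

private theorem all19 (j : ℕ) (hj : j < 20) :
    eqnAt 1 5 (-152) 722 Na19 Nb19 Da19 Db19 ((j : ℕ) : ℤ) = true := by
  exact chk_mem c19_0 j (by omega) (by omega)

theorem stable19 {t : ℂ} (ht : t ^ 2 = (1 : ℤ) * t - (5 : ℤ)) (ht0 : t ≠ 0) {L : PeriodPair}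
    (hg2 : L.g₂ = -4 * ((-152 : ℤ) : ℂ)) (hg3 : L.g₃ = -4 * ((722 : ℤ) : ℂ)) (l : ℂ)
    (hl : l ∈ L.lattice) : t * l ∈ L.lattice := by
  obtain ⟨h1, h2, h3, h4⟩ := data_ok (A := -152) (B := 722) (N₀ := Na19) (N₁ := Nb19)
    (D₀ := Da19) (D₁ := Db19) (m := 4) ht (by norm_num) ht0 rfl rfl rfl rfl rfl rfl rfl rfl
    (fun j hj => all19 j hj)
  exact stable ht0 hg2 hg3 h1 h2 h3 h4 l hl

end Pool.Agent.Lib.MP_1a91b9_nuX.UF
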