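import Pool.Agent.Lib.MP_1a91b9_nuX.UF.Pol

/-!
# The multiplication by `t`, discriminant `-43`

`t ^ 2 = 1 t - 11`, the curve `y ^ 2 = x ^ 3 + (-3440) x + (77658)`.
-/

set_option autoImplicit false

namespace Pool.Agent.Lib.MP_1a91b9_nuX.UF

/-- the numerator is `Na43 + t Nb43` -/
def Na43 : List ℤ :=
  [-7506410781326854144, 1964368043589822464, -227302776564368384, 15292775395738368,
   -661043190272256, 19123654607552, -373451375616, 4839054880, -39788760, 192984, -528, 1]

/-- the numerator is `Na43 + t Nb43` -/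
def Nb43 : List ℤ :=
  [4258725360556513280, -993299948781669376, 102405500908740608, -6125280972343552,
   234357153532288, -5955723077120, 100853039360, -1106293680, 7303808, -24424, 24, 0]

/-- the denominator is `Da43 + t Db43` -/
def Da43 : List ℤ :=
  [-221732199500426240, 57957725340179456, -6699649167687168, 450476841295360, -19476619891520,
   564378938112, -11062788880, 144177968, -1188176, 5544, -11]

/-- the denominator is `Da43 + t Db43` -/
def Db43 : List ℤ :=
  [125923301924585472, -29369675056837632, 3027051260069120, -180943908237312, 6915633350080,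
   -175498204800, 2968340224, -32602256, 217752, -768, 1]

private theorem c43_0 : chk 1 11 (-3440) 77658 Na43 Nb43 Da43 Db43 0 20 = true := by
  decide +kernel

private theorem c43_20 : chk 1 11 (-3440) 77658 Na43 Nb43 Da43 Db43 20 20 = true := by
  decide +kernel

private theorem c43_40 : chk 1 11 (-3440) 77658 Na43 Nb43 Da43 Db43 40 4 = true := by
  decide +kernel

private theorem all43 (j : ℕ) (hj : j < 44) :
    eqnAt 1 11 (-3440) 77658 Na43 Nb43 Da43 Db43 ((j : ℕ) : ℤ) = true := by
  rcases Nat.lt_or_ge j 20 with h | h0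
  · exact chk_mem c43_0 j (by omega) (by omega)
  rcases Nat.lt_or_ge j 40 with h | h1
  · exact chk_mem c43_20 j (by omega) (by omega)
  exact chk_mem c43_40 j (by omega) (by omega)

theorem stable43 {t : ℂ} (ht : t ^ 2 = (1 : ℤ) * t - (11 : ℤ)) (ht0 : t ≠ 0) {L : PeriodPair}
    (hg2 : L.g₂ = -4 * ((-3440 : ℤ) : ℂ)) (hg3 : L.g₃ = -4 * ((77658 : ℤ) : ℂ)) (l : ℂ)
    (hl : l ∈ L.lattice) : t * l ∈ L.lattice := by
  obtain ⟨h1, h2, h3, h4⟩ := data_ok (A := -3440) (B := 77658) (N₀ := Na43) (N₁ := Nb43)
    (D₀ := Da43) (D₁ := Db43) (m := 10) ht (by norm_num) ht0 rfl rfl rfl rfl rfl rfl rfl rfl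
    (fun j hj => all43 j hj)
  exact stable ht0 hg2 hg3 h1 h2 h3 h4 l hl

end Pool.Agent.Lib.MP_1a91b9_nuX.UF
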