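import Pool.Agent.Lib.MP_1a91b9_nuX.UF.Pol

/-!
# The multiplication by `t`, discriminant `-67`

`t ^ 2 = 1 t - 17`, the curve `y ^ 2 = x ^ 3 + (-29480) x + (1948226)`.
-/

set_option autoImplicit false

namespace Pool.Agent.Lib.MP_1a91b9_nuX.UF

/-- the numerator is `Na67 + t Nb67` -/
def Na67 : List ℤ :=
  [-6452008188523763187532043114706894848, 923095194119240786803018580594589696,
   -61344997138101269786085505921908736, 2512373242919104523054881986576384,
   -70928157691853689975359533686784, 1462474444535826755641384411136,
   -22759477274453069981434204160, 272351095605167518141754368, -2528705804541263084808192,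
   18241258537981402987776, -101640168458198264320, 431492033813621376, -1363069294214432,
   3086633742512, -4733374192, 4542332, -2584, 1]

/-- the numerator is `Na67 + t Nb67` -/
def Nb67 : List ℤ :=
  [3111198154975325093078037615679242240, -413347400287595664192564239937699840,
   25509335352605690939431638270803968, -969727405706206816544625853710336,
   25385333075096465887307750940672, -484542281962857872089148555264, 6963788086314540497990516736,
   -76704852092714784942582784, 652644336401865747908096, -4288714723871708267776,
   21592014288205952256, -81873786880212416, 227016965770784, -438128985664, 539599776, -355636,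
   76, 0]

/-- the denominator is `Da67 + t Db67` -/
def Da67 : List ℤ :=
  [-65100127752488294592729475774742528, 9313989289446483673726634987225088,
   -618955486202055203541803886231552, 25347952535783767785977352830976,
   -715555170740014939378822479872, 14752569851046437517477212160, -229557603900009126115205120,
   2746729600003550853493760, -25501889359447815651840, 183985159686685018624,
   -1025569707298923584, 4357184039547328, -13777328017552, 31182084080, -47318616, 42636, -17]

/-- the denominator is `Da67 + t Db67` -/
def Db67 : List ℤ :=
  [31383986844873147513459280851042304, -4169743259496443693477673994092544,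
   257341078067398149319798173138944, -9783095857024187489578152165376,
   256108817800147759435996946432, -4888581693841129068695552000, 70257897412225696362927104,
   -773841881159436495853568, 6583529372957559942400, -43254377866038909440, 217718776321479552,
   -825453759077120, 2289987503856, -4432581712, 5521604, -3800, 1]

private theorem c67_0 : chk 1 17 (-29480) 1948226 Na67 Nb67 Da67 Db67 0 20 = true := by
  decide +kernel

private theorem c67_20 : chk 1 17 (-29480) 1948226 Na67 Nb67 Da67 Db67 20 20 = true := by
  decide +kernel

private theorem c67_40 : chk 1 17 (-29480) 1948226 Na67 Nb67 Da67 Db67 40 20 = true := by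
  decide +kernel

private theorem c67_60 : chk 1 17 (-29480) 1948226 Na67 Nb67 Da67 Db67 60 8 = true := by
  decide +kernel

private theorem all67 (j : ℕ) (hj : j < 68) :
    eqnAt 1 17 (-29480) 1948226 Na67 Nb67 Da67 Db67 ((j : ℕ) : ℤ) = true := by
  rcases Nat.lt_or_ge j 20 with h | h0
  · exact chk_mem c67_0 j (by omega) (by omega)
  rcases Nat.lt_or_ge j 40 with h | h1
  · exact chk_mem c67_20 j (by omega) (by omega)
  rcases Nat.lt_or_ge j 60 with h | h2
  · exact chk_mem c67_40 j (by omega) (by omega)
  exact chk_mem c67_60 j (by omega) (by omega)

theorem stable67 {t : ℂ} (ht : t ^ 2 = (1 : ℤ) * t - (17 : ℤ)) (ht0 : t ≠ 0) {L : PeriodPair}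
    (hg2 : L.g₂ = -4 * ((-29480 : ℤ) : ℂ)) (hg3 : L.g₃ = -4 * ((1948226 : ℤ) : ℂ)) (l : ℂ)
    (hl : l ∈ L.lattice) : t * l ∈ L.lattice := by
  obtain ⟨h1, h2, h3, h4⟩ := data_ok (A := -29480) (B := 1948226) (N₀ := Na67) (N₁ := Nb67)
    (D₀ := Da67) (D₁ := Db67) (m := 16) ht (by norm_num) ht0 rfl rfl rfl rfl rfl rfl rfl rfl
    (fun j hj => all67 j hj)
  exact stable ht0 hg2 hg3 h1 h2 h3 h4 l hl

end Pool.Agent.Lib.MP_1a91b9_nuX.UF
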