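import Pool.Agent.Lib.MP_1a91b9_nuX.UF.Pol

/-!
# The multiplication by `t`, discriminant `-7`

`t ^ 2 = 1 t - 2`, the curve `y ^ 2 = x ^ 3 + (-35) x + (-98)`.
-/

set_option autoImplicit false

namespace Pool.Agent.Lib.MP_1a91b9_nuX.UF

/-- the numerator is `Na7 + t Nb7` -/
def Na7 : List ℤ :=
  [7, 4, 1]

/-- the numerator is `Na7 + t Nb7` -/
def Nb7 : List ℤ :=
  [-21, -1, 0]

/-- the denominator is `Da7 + t Db7` -/
def Da7 : List ℤ :=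
  [-6, -2]

/-- the denominator is `Da7 + t Db7` -/
def Db7 : List ℤ :=
  [5, 1]

private theorem c7_0 : chk 1 2 (-35) (-98) Na7 Nb7 Da7 Db7 0 8 = true := by
  decide +kernel

private theorem all7 (j : ℕ) (hj : j < 8) :
    eqnAt 1 2 (-35) (-98) Na7 Nb7 Da7 Db7 ((j : ℕ) : ℤ) = true := by
  exact chk_mem c7_0 j (by omega) (by omega)

theorem stable7 {t : ℂ} (ht : t ^ 2 = (1 : ℤ) * t - (2 : ℤ)) (ht0 : t ≠ 0) {L : PeriodPair}
    (hg2 : L.g₂ = -4 * ((-35 : ℤ) : ℂ)) (hg3 : L.g₃ = -4 * ((-98 : ℤ) : ℂ)) (l : ℂ)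
    (hl : l ∈ L.lattice) : t * l ∈ L.lattice := by
  obtain ⟨h1, h2, h3, h4⟩ := data_ok (A := -35) (B := -98) (N₀ := Na7) (N₁ := Nb7)
    (D₀ := Da7) (D₁ := Db7) (m := 1) ht (by norm_num) ht0 rfl rfl rfl rfl rfl rfl rfl rfl
    (fun j hj => all7 j hj)
  exact stable ht0 hg2 hg3 h1 h2 h3 h4 l hl

end Pool.Agent.Lib.MP_1a91b9_nuX.UF
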