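import Pool.Agent.Lib.MP_1a91b9_nuX.UF.Pol

/-!
# The multiplication by `t`, discriminant `-8`

`t ^ 2 = 0 t - 2`, the curve `y ^ 2 = x ^ 3 + (-30) x + (56)`.
-/

set_option autoImplicit false

namespace Pool.Agent.Lib.MP_1a91b9_nuX.UF

/-- the numerator is `Na8 + t Nb8` -/
def Na8 : List ℤ :=
  [18, -4, 1]

/-- the numerator is `Na8 + t Nb8` -/
def Nb8 : List ℤ :=
  [0, 0, 0]

/-- the denominator is `Da8 + t Db8` -/
def Da8 : List ℤ :=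
  [8, -2]

/-- the denominator is `Da8 + t Db8` -/
def Db8 : List ℤ :=
  [0, 0]

private theorem c8_0 : chk 0 2 (-30) 56 Na8 Nb8 Da8 Db8 0 8 = true := by
  decide +kernel

private theorem all8 (j : ℕ) (hj : j < 8) :
    eqnAt 0 2 (-30) 56 Na8 Nb8 Da8 Db8 ((j : ℕ) : ℤ) = true := by
  exact chk_mem c8_0 j (by omega) (by omega)

theorem stable8 {t : ℂ} (ht : t ^ 2 = (0 : ℤ) * t - (2 : ℤ)) (ht0 : t ≠ 0) {L : PeriodPair}
    (hg2 : L.g₂ = -4 * ((-30 : ℤ) : ℂ)) (hg3 : L.g₃ = -4 * ((56 : ℤ) : ℂ)) (l : ℂ)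
    (hl : l ∈ L.lattice) : t * l ∈ L.lattice := by
  obtain ⟨h1, h2, h3, h4⟩ := data_ok (A := -30) (B := 56) (N₀ := Na8) (N₁ := Nb8)
    (D₀ := Da8) (D₁ := Db8) (m := 1) ht (by norm_num) ht0 rfl rfl rfl rfl rfl rfl rfl rfl
    (fun j hj => all8 j hj)
  exact stable ht0 hg2 hg3 h1 h2 h3 h4 l hl

end Pool.Agent.Lib.MP_1a91b9_nuX.UF
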