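import Pool.Agent.Lib.MP_1a91b9_nuX.UF.Lat
import Pool.Agent.Lib.MP_1a91b9_nuX.UF.Idn
import Pool.Agent.Lib.MP_1a91b9_nuX.UF.Fld
import Pool.Agent.Lib.MP_1a91b9_nuX.UF.R7
import Pool.Agent.Lib.MP_1a91b9_nuX.UF.R8
import Pool.Agent.Lib.MP_1a91b9_nuX.UF.R11
import Pool.Agent.Lib.MP_1a91b9_nuX.UF.R19
import Pool.Agent.Lib.MP_1a91b9_nuX.UF.R43
import Pool.Agent.Lib.MP_1a91b9_nuX.UF.R67
import Pool.Agent.Lib.MP_1a91b9_nuX.UF.R163

/-!
# The nine invariants of class number one: the period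

`A`, `B` integers with `6912 A ^ 3 = J (4 A ^ 3 + 27 B ^ 2)`, `J` one of the nine integral values of
`j` at the maximal orders of class number one. Then `y ^ 2 = x ^ 3 + A x + B` has the lattice of
periods `Om⁻¹ 𝓞 K` for some `Om`: `g₂ (𝓞 K) = -4 A Om ^ 4`, `g₃ (𝓞 K) = -4 B Om ^ 6`.
-/

set_option autoImplicit false

namespace Pool.Agent.Lib.MP_1a91b9_nuX.UF

open NumberField Pool.Agent.Lib.MP_1a91b9_nuT

noncomputable section

/-- Curves with the same invariant `j`. -/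
theorem twist_exists {A B A0 B0 : ℂ} (h : 4 * A ^ 3 + 27 * B ^ 2 ≠ 0)
    (h0 : 4 * A0 ^ 3 + 27 * B0 ^ 2 ≠ 0)
    (hj : A ^ 3 * (4 * A0 ^ 3 + 27 * B0 ^ 2) = A0 ^ 3 * (4 * A ^ 3 + 27 * B ^ 2)) :
    ∃ u : ℂ, u ≠ 0 ∧ A = A0 * u ^ 4 ∧ B = B0 * u ^ 6 := by
  have hAB : A ^ 3 * B0 ^ 2 = A0 ^ 3 * B ^ 2 := by linear_combination hj / 27
  by_cases hA0 : A0 = 0
  · subst hA0
    have hB0 : B0 ≠ 0 := by
      rintro rfl
      exact h0 (by ring)
    have hA : A = 0 := by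
      have h1 : A ^ 3 * B0 ^ 2 = 0 := by rw [hAB]; ring
      rcases mul_eq_zero.mp h1 with h2 | h2
      · exact pow_eq_zero_iff (three_ne_zero) |>.mp h2
      · exact absurd (pow_eq_zero_iff (two_ne_zero) |>.mp h2) hB0
    have hB : B ≠ 0 := by
      rintro rfl
      exact h (by rw [hA]; ring)
    obtain ⟨u, hu⟩ := IsAlgClosed.exists_pow_nat_eq (B / B0) (n := 6) (by norm_num)
    refine ⟨u, ?_, ?_, ?_⟩
    · rintro rfl
      rw [zero_pow (by norm_num)] at hu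
      exact div_ne_zero hB hB0 hu.symm
    · rw [hA, zero_mul]
    · rw [hu, mul_div_cancel₀ _ hB0]
  · have hA : A ≠ 0 := by
      rintro rfl
      have h1 : A0 ^ 3 * B ^ 2 = 0 := by rw [← hAB]; ring
      rcases mul_eq_zero.mp h1 with h2 | h2
      · exact hA0 (pow_eq_zero_iff (three_ne_zero) |>.mp h2)
      · apply h
        rw [h2]
        ring
    obtain ⟨w0, hw0⟩ := IsAlgClosed.exists_pow_nat_eq (A / A0) (n := 2) (by norm_num)
    have hw : ∃ w : ℂ, w ^ 2 = A / A0 ∧ B0 * w ^ 3 = B := by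
      have h1 : (B0 * w0 ^ 3) ^ 2 = B ^ 2 := by
        have h2 : (B0 * w0 ^ 3) ^ 2 = B0 ^ 2 * (w0 ^ 2) ^ 3 := by ring
        rw [h2, hw0, div_pow, mul_div_assoc', mul_comm (B0 ^ 2), hAB, mul_comm, mul_div_assoc,
          div_self (pow_ne_zero 3 hA0), mul_one]
      rcases sq_eq_sq_iff_eq_or_eq_neg.mp h1 with h2 | h2
      · exact ⟨w0, hw0, h2⟩
      · refine ⟨-w0, by rw [neg_sq, hw0], ?_⟩
        linear_combination -h2
    obtain ⟨w, hw1, hw2⟩ := hw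
    obtain ⟨u, hu⟩ := IsAlgClosed.exists_pow_nat_eq w (n := 2) (by norm_num)
    have h4 : u ^ 4 = A / A0 := by
      rw [← hw1, ← hu]
      ring
    refine ⟨u, ?_, ?_, ?_⟩
    · rintro rfl
      rw [zero_pow (by norm_num)] at h4
      exact div_ne_zero hA hA0 h4.symm
    · rw [h4, mul_div_cancel₀ _ hA0]
    · rw [← hw2, ← hu]
      ring

/-- The embedding of `KK`. -/
def embKK (tr nm : ℤ) (h : 0 < 4 * nm - tr ^ 2) : KK tr nm h →ₐ[ℚ] ℂ := (KK tr nm h).val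

theorem embKK_ta {tr nm : ℤ} (h : 0 < 4 * nm - tr ^ 2) :
    embKK tr nm h (taK tr nm h : KK tr nm h) = tt tr nm := rfl

theorem im_KK {tr nm : ℤ} (h : 0 < 4 * nm - tr ^ 2) :
    (embKK tr nm h (taK tr nm h : KK tr nm h)).im ≠ 0 := tt_im_ne h

theorem quad_KK {tr nm : ℤ} (h : 0 < 4 * nm - tr ^ 2) :
    taK tr nm h ^ 2 = (tr : 𝓞 (KK tr nm h)) * taK tr nm h - (nm : 𝓞 (KK tr nm h)) := by
  apply fK_inj h
  rw [map_pow, map_sub, map_mul, map_intCast, map_intCast, fK_ta, tt_sq h]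

theorem core {tr nm : ℤ} {k : ℕ} (hg : Good tr nm k) {A0 B0 A B : ℤ}
    (h0 : 4 * A0 ^ 3 + 27 * B0 ^ 2 ≠ 0) (h : 4 * A ^ 3 + 27 * B ^ 2 ≠ 0)
    (hj : A ^ 3 * (4 * A0 ^ 3 + 27 * B0 ^ 2) = A0 ^ 3 * (4 * A ^ 3 + 27 * B ^ 2))
    (hst : ∀ L : PeriodPair, L.g₂ = -4 * (A0 : ℂ) → L.g₃ = -4 * (B0 : ℂ) →
      ∀ l ∈ L.lattice, tt tr nm * l ∈ L.lattice) :
    ∃ Om : ℂ, Om ≠ 0 ∧
      (mkPP (embKK tr nm hg.pos (taK tr nm hg.pos : KK tr nm hg.pos)) (im_KK hg.pos)).g₂ =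
        -4 * (A : ℂ) * Om ^ 4 ∧
      (mkPP (embKK tr nm hg.pos (taK tr nm hg.pos : KK tr nm hg.pos)) (im_KK hg.pos)).g₃ =
        -4 * (B : ℂ) * Om ^ 6 := by
  have h0C : 4 * (A0 : ℂ) ^ 3 + 27 * (B0 : ℂ) ^ 2 ≠ 0 := by exact_mod_cast h0
  have hC : 4 * (A : ℂ) ^ 3 + 27 * (B : ℂ) ^ 2 ≠ 0 := by exact_mod_cast h
  have hjC : (A : ℂ) ^ 3 * (4 * (A0 : ℂ) ^ 3 + 27 * (B0 : ℂ) ^ 2) =
      (A0 : ℂ) ^ 3 * (4 * (A : ℂ) ^ 3 + 27 * (B : ℂ) ^ 2) := by exact_mod_cast hj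
  obtain ⟨u, hu, hA, hB⟩ := twist_exists hC h0C hjC
  obtain ⟨L, hL2, hL3⟩ := exists_lattice (-4 * (A0 : ℂ)) (-4 * (B0 : ℂ)) (by
    intro h1
    apply h0C
    linear_combination -h1 / 16)
  have hpid : IsPrincipalIdealRing (𝓞 (KK tr nm hg.pos)) := pid_KK hg
  obtain ⟨Om, hOm, e2, e3⟩ := exists_Om (embKK tr nm hg.pos) (ta := taK tr nm hg.pos)
    (gen_KK hg) (im_KK hg.pos) (L := L) (hst L hL2 hL3) hL2 hL3
  refine ⟨Om / u, div_ne_zero hOm hu, ?_, ?_⟩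
  · rw [e2, hA, div_pow]
    field_simp
  · rw [e3, hB, div_pow]
    field_simp

/-! ### The nine cases -/

private theorem inert_aux {p : ℕ} {tr nm : ℤ}
    (h : ∀ x y : ZMod p, x ^ 2 + (tr : ZMod p) * (x * y) + (nm : ZMod p) * y ^ 2 = 0 →
      x = 0 ∧ y = 0) (x y : ℤ) (hd : (p : ℤ) ∣ x ^ 2 + tr * (x * y) + nm * y ^ 2) :
    (p : ℤ) ∣ x ∧ (p : ℤ) ∣ y := by
  rw [← ZMod.intCast_zmod_eq_zero_iff_dvd] at hd ⊢
  rw [← ZMod.intCast_zmod_eq_zero_iff_dvd]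
  push_cast at hd
  exact h _ _ hd

private theorem sqf_prime {n : ℤ} (h : n.natAbs.Prime) : Squarefree n :=
  (Int.prime_iff_natAbs_prime.mpr h).squarefree

private theorem no_prime {tr nm : ℤ} : ∀ p : ℕ, p.Prime → p ≤ 1 → ∀ x y : ℤ,
    (p : ℤ) ∣ x ^ 2 + tr * (x * y) + nm * y ^ 2 → (p : ℤ) ∣ x ∧ (p : ℤ) ∣ y := by
  intro p hp hp1
  have := hp.two_le
  omega

theorem good3 : Good 1 1 1 :=
  ⟨Or.inr rfl, by norm_num, Or.inl ⟨rfl, sqf_prime (by norm_num)⟩, le_rfl, by norm_num, no_prime⟩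

theorem good4 : Good 0 1 1 :=
  ⟨Or.inl rfl, by norm_num, Or.inr ⟨rfl, Or.inl rfl⟩, le_rfl, by norm_num, no_prime⟩

theorem good7 : Good 1 2 1 :=
  ⟨Or.inr rfl, by norm_num, Or.inl ⟨rfl, sqf_prime (by norm_num)⟩, le_rfl, by norm_num, no_prime⟩

theorem good8 : Good 0 2 1 :=
  ⟨Or.inl rfl, by norm_num, Or.inr ⟨rfl, Or.inr rfl⟩, le_rfl, by norm_num, no_prime⟩

theorem good11 : Good 1 3 1 :=
  ⟨Or.inr rfl, by norm_num, Or.inl ⟨rfl, sqf_prime (by norm_num)⟩, le_rfl, by norm_num, no_prime⟩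

theorem good19 : Good 1 5 2 := by
  refine ⟨Or.inr rfl, by norm_num, Or.inl ⟨rfl, sqf_prime (by norm_num)⟩, by norm_num,
    by norm_num, ?_⟩
  intro p hp hpk
  have h2 := hp.two_le
  obtain rfl : p = 2 := by omega
  exact inert_aux (by decide)

theorem good43 : Good 1 11 3 := by
  refine ⟨Or.inr rfl, by norm_num, Or.inl ⟨rfl, sqf_prime (by norm_num)⟩, by norm_num,
    by norm_num, ?_⟩
  intro p hp hpk
  have h2 := hp.two_le
  obtain rfl | rfl : p = 2 ∨ p = 3 := by omega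
  · exact inert_aux (by decide)
  · exact inert_aux (by decide)

theorem good67 : Good 1 17 4 := by
  refine ⟨Or.inr rfl, by norm_num, Or.inl ⟨rfl, sqf_prime (by norm_num)⟩, by norm_num,
    by norm_num, ?_⟩
  intro p hp hpk
  have h2 := hp.two_le
  obtain rfl | rfl | rfl : p = 2 ∨ p = 3 ∨ p = 4 := by omega
  · exact inert_aux (by decide)
  · exact inert_aux (by decide)
  · exact absurd hp (by norm_num)

theorem good163 : Good 1 41 7 := by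
  refine ⟨Or.inr rfl, by norm_num, Or.inl ⟨rfl, sqf_prime (by norm_num)⟩, by norm_num,
    by norm_num, ?_⟩
  intro p hp hpk
  have h2 := hp.two_le
  obtain rfl | rfl | rfl | rfl | rfl | rfl :
    p = 2 ∨ p = 3 ∨ p = 4 ∨ p = 5 ∨ p = 6 ∨ p = 7 := by omega
  · exact inert_aux (by decide)
  · exact inert_aux (by decide)
  · exact absurd hp (by norm_num)
  · exact inert_aux (by decide)
  · exact absurd hp (by norm_num)
  · exact inert_aux (by decide)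

theorem stable3 {t : ℂ} (ht : t ^ 2 = (1 : ℤ) * t - (1 : ℤ)) (ht0 : t ≠ 0) {L : PeriodPair}
    (hg2 : L.g₂ = -4 * ((0 : ℤ) : ℂ)) (hg3 : L.g₃ = -4 * ((1 : ℤ) : ℂ)) (l : ℂ)
    (hl : l ∈ L.lattice) : t * l ∈ L.lattice := by
  have h6 : (t ^ 2) ^ 3 = 1 := by
    push_cast at ht
    linear_combination (t ^ 4 + t ^ 3 - t - 1) * ht
  refine stable ht0 (N := Polynomial.X) (D := Polynomial.C (t ^ 2)) hg2 hg3
    Polynomial.monic_X (Polynomial.leadingCoeff_C _) ?_ ?_ l hl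
  · rw [Polynomial.natDegree_X, Polynomial.natDegree_C]
  · have h7 : (Polynomial.C (t ^ 2) : Polynomial ℂ) ^ 3 = 1 := by
      rw [← Polynomial.C_pow, h6, Polynomial.C_1]
    rw [Polynomial.derivative_X, Polynomial.derivative_C, h7]
    push_cast
    rw [Polynomial.C_0]
    ring

theorem stable4 {t : ℂ} (ht : t ^ 2 = (0 : ℤ) * t - (1 : ℤ)) (ht0 : t ≠ 0) {L : PeriodPair}
    (hg2 : L.g₂ = -4 * ((1 : ℤ) : ℂ)) (hg3 : L.g₃ = -4 * ((0 : ℤ) : ℂ)) (l : ℂ)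
    (hl : l ∈ L.lattice) : t * l ∈ L.lattice := by
  have h6 : (t ^ 2) ^ 2 = 1 := by
    rw [ht]
    push_cast
    ring
  refine stable ht0 (N := Polynomial.X) (D := Polynomial.C (t ^ 2)) hg2 hg3
    Polynomial.monic_X (Polynomial.leadingCoeff_C _) ?_ ?_ l hl
  · rw [Polynomial.natDegree_X, Polynomial.natDegree_C]
  · have h7 : (Polynomial.C (t ^ 2) : Polynomial ℂ) ^ 2 = 1 := by
      rw [← Polynomial.C_pow, h6, Polynomial.C_1]
    rw [Polynomial.derivative_X, Polynomial.derivative_C, h7]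
    push_cast
    rw [Polynomial.C_0]
    ring

theorem tt_ne {tr nm : ℤ} (h : 0 < 4 * nm - tr ^ 2) : tt tr nm ≠ 0 := by
  intro h0
  apply tt_im_ne h
  rw [h0, Complex.zero_im]

/-- The data of a curve with complex multiplication by the maximal order. -/
def HasOm (tr nm : ℤ) (h : 0 < 4 * nm - tr ^ 2) (A B : ℤ) : Prop :=
  ∃ Om : ℂ, Om ≠ 0 ∧
    (mkPP (embKK tr nm h (taK tr nm h : KK tr nm h)) (im_KK h)).g₂ = -4 * (A : ℂ) * Om ^ 4 ∧
    (mkPP (embKK tr nm h (taK tr nm h : KK tr nm h)) (im_KK h)).g₃ = -4 * (B : ℂ) * Om ^ 6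

theorem hasOm_of {tr nm : ℤ} {k : ℕ} (hg : Good tr nm k) {J A0 B0 A B : ℤ}
    (h0 : 4 * A0 ^ 3 + 27 * B0 ^ 2 ≠ 0) (hj0 : 6912 * A0 ^ 3 = J * (4 * A0 ^ 3 + 27 * B0 ^ 2))
    (h : 4 * A ^ 3 + 27 * B ^ 2 ≠ 0) (hj : 6912 * A ^ 3 = J * (4 * A ^ 3 + 27 * B ^ 2))
    (hst : ∀ L : PeriodPair, L.g₂ = -4 * (A0 : ℂ) → L.g₃ = -4 * (B0 : ℂ) →
      ∀ l ∈ L.lattice, tt tr nm * l ∈ L.lattice) : HasOm tr nm hg.pos A B := by
  refine core hg h0 h ?_ hst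
  have h1 : (6912 : ℤ) * (A ^ 3 * (4 * A0 ^ 3 + 27 * B0 ^ 2)) =
      6912 * (A0 ^ 3 * (4 * A ^ 3 + 27 * B ^ 2)) := by
    linear_combination (4 * A0 ^ 3 + 27 * B0 ^ 2) * hj - (4 * A ^ 3 + 27 * B ^ 2) * hj0
  exact mul_left_cancel₀ (by norm_num) h1

theorem hasOm3 {A B : ℤ} (h : 4 * A ^ 3 + 27 * B ^ 2 ≠ 0)
    (hj : 6912 * A ^ 3 = 0 * (4 * A ^ 3 + 27 * B ^ 2)) : HasOm 1 1 good3.pos A B :=
  hasOm_of good3 (J := 0) (A0 := 0) (B0 := 1) (by norm_num) (by norm_num) h hj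
    fun _ h2 h3 l hl => stable3 (tt_sq good3.pos) (tt_ne good3.pos) h2 h3 l hl

theorem hasOm4 {A B : ℤ} (h : 4 * A ^ 3 + 27 * B ^ 2 ≠ 0)
    (hj : 6912 * A ^ 3 = 1728 * (4 * A ^ 3 + 27 * B ^ 2)) : HasOm 0 1 good4.pos A B :=
  hasOm_of good4 (J := 1728) (A0 := 1) (B0 := 0) (by norm_num) (by norm_num) h hj
    fun _ h2 h3 l hl => stable4 (tt_sq good4.pos) (tt_ne good4.pos) h2 h3 l hl

theorem hasOm7 {A B : ℤ} (h : 4 * A ^ 3 + 27 * B ^ 2 ≠ 0)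
    (hj : 6912 * A ^ 3 = (-3375) * (4 * A ^ 3 + 27 * B ^ 2)) : HasOm 1 2 good7.pos A B :=
  hasOm_of good7 (J := -3375) (A0 := -35) (B0 := -98) (by norm_num) (by norm_num) h hj
    fun _ h2 h3 l hl => stable7 (tt_sq good7.pos) (tt_ne good7.pos) h2 h3 l hl

theorem hasOm8 {A B : ℤ} (h : 4 * A ^ 3 + 27 * B ^ 2 ≠ 0)
    (hj : 6912 * A ^ 3 = 8000 * (4 * A ^ 3 + 27 * B ^ 2)) : HasOm 0 2 good8.pos A B :=
  hasOm_of good8 (J := 8000) (A0 := -30) (B0 := 56) (by norm_num) (by norm_num) h hj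
    fun _ h2 h3 l hl => stable8 (tt_sq good8.pos) (tt_ne good8.pos) h2 h3 l hl

theorem hasOm11 {A B : ℤ} (h : 4 * A ^ 3 + 27 * B ^ 2 ≠ 0)
    (hj : 6912 * A ^ 3 = (-32768) * (4 * A ^ 3 + 27 * B ^ 2)) : HasOm 1 3 good11.pos A B :=
  hasOm_of good11 (J := -32768) (A0 := -264) (B0 := 1694) (by norm_num) (by norm_num) h hj
    fun _ h2 h3 l hl => stable11 (tt_sq good11.pos) (tt_ne good11.pos) h2 h3 l hl

theorem hasOm19 {A B : ℤ} (h : 4 * A ^ 3 + 27 * B ^ 2 ≠ 0)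
    (hj : 6912 * A ^ 3 = (-884736) * (4 * A ^ 3 + 27 * B ^ 2)) : HasOm 1 5 good19.pos A B :=
  hasOm_of good19 (J := -884736) (A0 := -152) (B0 := 722) (by norm_num) (by norm_num) h hj
    fun _ h2 h3 l hl => stable19 (tt_sq good19.pos) (tt_ne good19.pos) h2 h3 l hl

theorem hasOm43 {A B : ℤ} (h : 4 * A ^ 3 + 27 * B ^ 2 ≠ 0)
    (hj : 6912 * A ^ 3 = (-884736000) * (4 * A ^ 3 + 27 * B ^ 2)) : HasOm 1 11 good43.pos A B :=
  hasOm_of good43 (J := -884736000) (A0 := -3440) (B0 := 77658) (by norm_num) (by norm_num) h hj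
    fun _ h2 h3 l hl => stable43 (tt_sq good43.pos) (tt_ne good43.pos) h2 h3 l hl

theorem hasOm67 {A B : ℤ} (h : 4 * A ^ 3 + 27 * B ^ 2 ≠ 0)
    (hj : 6912 * A ^ 3 = (-147197952000) * (4 * A ^ 3 + 27 * B ^ 2)) : HasOm 1 17 good67.pos A B :=
  hasOm_of good67 (J := -147197952000) (A0 := -29480) (B0 := 1948226) (by norm_num) (by norm_num) h hj
    fun _ h2 h3 l hl => stable67 (tt_sq good67.pos) (tt_ne good67.pos) h2 h3 l hl

theorem hasOm163 {A B : ℤ} (h : 4 * A ^ 3 + 27 * B ^ 2 ≠ 0)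
    (hj : 6912 * A ^ 3 = (-262537412640768000) * (4 * A ^ 3 + 27 * B ^ 2)) : HasOm 1 41 good163.pos A B :=
  hasOm_of good163 (J := -262537412640768000) (A0 := -34790720) (B0 := 78984748304) (by norm_num) (by norm_num) h hj
    fun _ h2 h3 l hl => stable163 (tt_sq good163.pos) (tt_ne good163.pos) h2 h3 l hl

/-- The nine values of `j` with the trace and the norm of `t`. -/
def jList : List (ℤ × ℤ × ℤ) :=
  [(0, 1, 1), (1728, 0, 1), (-3375, 1, 2), (8000, 0, 2), (-32768, 1, 3), (-884736, 1, 5),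
    (-884736000, 1, 11), (-147197952000, 1, 17), (-262537412640768000, 1, 41)]

/-- **Complex multiplication by the maximal orders of class number one.** If the invariant of
`y ^ 2 = x ^ 3 + A x + B` is one of the nine values, then its lattice is homothetic to the ring of
integers. -/
theorem exists_data {A B J : ℤ} (h : 4 * A ^ 3 + 27 * B ^ 2 ≠ 0)
    (hj : 6912 * A ^ 3 = J * (4 * A ^ 3 + 27 * B ^ 2))
    (hJ : J ∈ jList.map Prod.fst) :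
    ∃ (tr nm : ℤ) (k : ℕ) (hg : Good tr nm k), (J, tr, nm) ∈ jList ∧ HasOm tr nm hg.pos A B := by
  simp only [jList, List.map_cons, List.map_nil, List.mem_cons, List.not_mem_nil, or_false] at hJ
  rcases hJ with rfl | rfl | rfl | rfl | rfl | rfl | rfl | rfl | rfl
  · exact ⟨1, 1, _, good3, by simp [jList], hasOm3 h (by linear_combination hj)⟩
  · exact ⟨0, 1, _, good4, by simp [jList], hasOm4 h (by linear_combination hj)⟩
  · exact ⟨1, 2, _, good7, by simp [jList], hasOm7 h (by linear_combination hj)⟩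
  · exact ⟨0, 2, _, good8, by simp [jList], hasOm8 h (by linear_combination hj)⟩
  · exact ⟨1, 3, _, good11, by simp [jList], hasOm11 h (by linear_combination hj)⟩
  · exact ⟨1, 5, _, good19, by simp [jList], hasOm19 h (by linear_combination hj)⟩
  · exact ⟨1, 11, _, good43, by simp [jList], hasOm43 h (by linear_combination hj)⟩
  · exact ⟨1, 17, _, good67, by simp [jList], hasOm67 h (by linear_combination hj)⟩
  · exact ⟨1, 41, _, good163, by simp [jList], hasOm163 h (by linear_combination hj)⟩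

end

end Pool.Agent.Lib.MP_1a91b9_nuX.UF
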