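import Pool.Agent.Lib.MP_1a91b9_nuT.Nrm

/-!
# The nine fields: auxiliary primes, units, the square root of the discriminant

For a class `CD` whose trace and norm `(tr, nm)` of `ta` are in the list of the nine fields of class
number one:

* `exists_ell`: two distinct primes `≡ 11` modulo `12` (`≡ 5` modulo `24` for `ℚ(i)`, `≡ 7` modulo
  `12` for `ℚ(√-3)`) which are norms;
* `units_two`, `units_four`, `units_six`: the units;
* `rt = 2 ta - tr`: `rt ^ 2 = tr ^ 2 - 4 nm = -p`, `N(rt) = p`, `𝓞 K / rt = 𝔽_p`.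
-/

set_option autoImplicit false

namespace Pool.Agent.Lib.MP_1a91b9_nuX.UF

open NumberField Pool.Agent.Lib.MP_1a91b9_nuT

noncomputable section

/-- trace and norm of `ta` for the seven fields with two units -/
def qList : List (ℤ × ℤ) := [(1, 2), (0, 2), (1, 3), (1, 5), (1, 11), (1, 17), (1, 41)]

/-- trace and norm of `ta` for the six fields `ℚ(√-p)`, `p > 3` -/
def oList : List (ℤ × ℤ) := [(1, 2), (1, 3), (1, 5), (1, 11), (1, 17), (1, 41)]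

theorem qList_cases {x : ℤ × ℤ} (h : x ∈ qList) : x = (0, 2) ∨ x ∈ oList := by
  simp only [qList, oList, List.mem_cons, List.not_mem_nil, or_false] at h ⊢
  tauto

variable [CD]

private theorem ell_norm {m n : ℤ} {l : ℕ} (h : m ^ 2 + CD.tr * m * n + CD.nm * n ^ 2 = l) :
    Ideal.absNorm (Ideal.span {(m : 𝓞 K) + (n : 𝓞 K) * ta}) = l := by
  have h1 := absNorm_form m n
  rw [h] at h1
  exact_mod_cast h1

private theorem ell_core (l₁ l₂ : ℕ) (m₁ n₁ m₂ n₂ : ℤ)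
    (h₁ : m₁ ^ 2 + CD.tr * m₁ * n₁ + CD.nm * n₁ ^ 2 = l₁)
    (h₂ : m₂ ^ 2 + CD.tr * m₂ * n₂ + CD.nm * n₂ ^ 2 = l₂) (hp₁ : l₁.Prime) (hp₂ : l₂.Prime)
    (hne : l₁ ≠ l₂) (P : ℕ → Prop) (hP₁ : P l₁) (hP₂ : P l₂) :
    ∃ (l₁ l₂ : ℕ) (α₁ α₂ : 𝓞 K), l₁.Prime ∧ l₂.Prime ∧ l₁ ≠ l₂ ∧ P l₁ ∧ P l₂ ∧
      Ideal.absNorm (Ideal.span {α₁}) = l₁ ∧ Ideal.absNorm (Ideal.span {α₂}) = l₂ :=
  ⟨l₁, l₂, _, _, hp₁, hp₂, hne, hP₁, hP₂, ell_norm h₁, ell_norm h₂⟩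

/-- Two distinct primes `≡ 11` modulo `12` which are norms (fields with two units). -/
theorem exists_ell (h : ((CD.tr, CD.nm) : ℤ × ℤ) ∈ qList) :
    ∃ (l₁ l₂ : ℕ) (α₁ α₂ : 𝓞 K), l₁.Prime ∧ l₂.Prime ∧ l₁ ≠ l₂ ∧ l₁ % 12 = 11 ∧ l₂ % 12 = 11 ∧
      Ideal.absNorm (Ideal.span {α₁}) = l₁ ∧ Ideal.absNorm (Ideal.span {α₂}) = l₂ := by
  simp only [qList, List.mem_cons, Prod.mk.injEq, List.not_mem_nil, or_false] at h
  rcases h with ⟨h1, h2⟩ | ⟨h1, h2⟩ | ⟨h1, h2⟩ | ⟨h1, h2⟩ | ⟨h1, h2⟩ | ⟨h1, h2⟩ | ⟨h1, h2⟩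
  · exact ell_core 11 23 1 2 3 2 (by rw [h1, h2]; norm_num) (by rw [h1, h2]; norm_num)
      (by norm_num) (by norm_num) (by norm_num) (fun l => l % 12 = 11) (by norm_num) (by norm_num)
  · exact ell_core 11 59 3 1 3 5 (by rw [h1, h2]; norm_num) (by rw [h1, h2]; norm_num)
      (by norm_num) (by norm_num) (by norm_num) (fun l => l % 12 = 11) (by norm_num) (by norm_num)
  · exact ell_core 23 47 4 1 5 2 (by rw [h1, h2]; norm_num) (by rw [h1, h2]; norm_num)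
      (by norm_num) (by norm_num) (by norm_num) (fun l => l % 12 = 11) (by norm_num) (by norm_num)
  · exact ell_core 11 23 2 1 1 2 (by rw [h1, h2]; norm_num) (by rw [h1, h2]; norm_num)
      (by norm_num) (by norm_num) (by norm_num) (fun l => l % 12 = 11) (by norm_num) (by norm_num)
  · exact ell_core 11 23 0 1 3 1 (by rw [h1, h2]; norm_num) (by rw [h1, h2]; norm_num)
      (by norm_num) (by norm_num) (by norm_num) (fun l => l % 12 = 11) (by norm_num) (by norm_num)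
  · exact ell_core 23 47 2 1 5 1 (by rw [h1, h2]; norm_num) (by rw [h1, h2]; norm_num)
      (by norm_num) (by norm_num) (by norm_num) (fun l => l % 12 = 11) (by norm_num) (by norm_num)
  · exact ell_core 47 71 2 1 5 1 (by rw [h1, h2]; norm_num) (by rw [h1, h2]; norm_num)
      (by norm_num) (by norm_num) (by norm_num) (fun l => l % 12 = 11) (by norm_num) (by norm_num)

/-- Two distinct primes `≡ 5` modulo `24` which are norms (`ℚ(i)`). -/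
theorem exists_ell_four (h1 : CD.tr = 0) (h2 : CD.nm = 1) :
    ∃ (l₁ l₂ : ℕ) (α₁ α₂ : 𝓞 K), l₁.Prime ∧ l₂.Prime ∧ l₁ ≠ l₂ ∧ l₁ % 24 = 5 ∧ l₂ % 24 = 5 ∧
      Ideal.absNorm (Ideal.span {α₁}) = l₁ ∧ Ideal.absNorm (Ideal.span {α₂}) = l₂ :=
  ell_core 5 29 2 1 5 2 (by rw [h1, h2]; norm_num) (by rw [h1, h2]; norm_num)
    (by norm_num) (by norm_num) (by norm_num) (fun l => l % 24 = 5) (by norm_num) (by norm_num)

/-- Two distinct primes `≡ 7` modulo `12` which are norms (`ℚ(√-3)`). -/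
theorem exists_ell_six (h1 : CD.tr = 1) (h2 : CD.nm = 1) :
    ∃ (l₁ l₂ : ℕ) (α₁ α₂ : 𝓞 K), l₁.Prime ∧ l₂.Prime ∧ l₁ ≠ l₂ ∧ l₁ % 12 = 7 ∧ l₂ % 12 = 7 ∧
      Ideal.absNorm (Ideal.span {α₁}) = l₁ ∧ Ideal.absNorm (Ideal.span {α₂}) = l₂ :=
  ell_core 7 19 2 1 3 2 (by rw [h1, h2]; norm_num) (by rw [h1, h2]; norm_num)
    (by norm_num) (by norm_num) (by norm_num) (fun l => l % 12 = 7) (by norm_num) (by norm_num)

/-! ### Units -/

/-- the norm of a unit is one -/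
theorem unit_form (u : (𝓞 K)ˣ) {m n : ℤ} (h : (u : 𝓞 K) = (m : 𝓞 K) + (n : 𝓞 K) * ta) :
    m ^ 2 + CD.tr * m * n + CD.nm * n ^ 2 = 1 := by
  have h1 := absNorm_form m n
  rw [← h, (Ideal.span_singleton_eq_top.2 u.isUnit), Ideal.absNorm_top] at h1
  exact_mod_cast h1.symm

private theorem disc_four (h : ((CD.tr, CD.nm) : ℤ × ℤ) ∈ qList) :
    (4 : ℤ) < 4 * CD.nm - CD.tr ^ 2 := by
  simp only [qList, List.mem_cons, Prod.mk.injEq, List.not_mem_nil, or_false] at h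
  rcases h with ⟨h1, h2⟩ | ⟨h1, h2⟩ | ⟨h1, h2⟩ | ⟨h1, h2⟩ | ⟨h1, h2⟩ | ⟨h1, h2⟩ | ⟨h1, h2⟩ <;>
  · rw [h1, h2]
    norm_num

/-- The units are `1` and `-1` (fields with two units). -/
theorem units_two (h : ((CD.tr, CD.nm) : ℤ × ℤ) ∈ qList) (u : (𝓞 K)ˣ) : u = 1 ∨ u = -1 := by
  obtain ⟨m, n, hu⟩ := exists_coords (u : 𝓞 K)
  have h1 := unit_form u hu
  have h2 := disc_four h
  have hn : n = 0 := by
    have h3 : (2 * m + CD.tr * n) ^ 2 + (4 * CD.nm - CD.tr ^ 2) * n ^ 2 = 4 := by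
      linear_combination 4 * h1
    by_contra hn
    have h4 : 0 < n ^ 2 := by positivity
    nlinarith [sq_nonneg (2 * m + CD.tr * n)]
  subst hn
  have h3 : (m - 1) * (m + 1) = 0 := by linear_combination h1
  rcases mul_eq_zero.1 h3 with h4 | h4
  · left
    apply Units.ext
    rw [hu, show m = 1 by omega]
    simp
  · right
    apply Units.ext
    rw [hu, show m = -1 by omega]
    simp

omit [CD] in
private theorem ell_le_one {x : ℤ} (h : x ^ 2 ≤ 1) : -1 ≤ x ∧ x ≤ 1 := by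
  constructor <;> nlinarith

/-- The units of `ℤ[i]`. -/
theorem units_four (h1 : CD.tr = 0) (h2 : CD.nm = 1) (u : (𝓞 K)ˣ) :
    ∃ k : ℕ, k < 4 ∧ (u : 𝓞 K) = ta ^ k := by
  obtain ⟨m, n, hu⟩ := exists_coords (u : 𝓞 K)
  have h3 := unit_form u hu
  have hq := ta_quad
  rw [h1, h2] at h3 hq
  have hq' : (ta : 𝓞 K) ^ 2 = -1 := by rw [hq]; push_cast; ring
  obtain ⟨a1, a2⟩ := ell_le_one (x := m) (by nlinarith [sq_nonneg n])
  obtain ⟨b1, b2⟩ := ell_le_one (x := n) (by nlinarith [sq_nonneg m])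
  rw [hu]
  have hm : m = -1 ∨ m = 0 ∨ m = 1 := by omega
  have hn : n = -1 ∨ n = 0 ∨ n = 1 := by omega
  rcases hm with rfl | rfl | rfl <;> rcases hn with rfl | rfl | rfl <;> try omega
  · exact ⟨2, by norm_num, by push_cast; linear_combination -hq'⟩
  · exact ⟨3, by norm_num, by push_cast; linear_combination -ta * hq'⟩
  · exact ⟨1, by norm_num, by push_cast; ring⟩
  · exact ⟨0, by norm_num, by push_cast; ring⟩

/-- The units of `ℤ[ω]`. -/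
theorem units_six (h1 : CD.tr = 1) (h2 : CD.nm = 1) (u : (𝓞 K)ˣ) :
    ∃ k : ℕ, k < 6 ∧ (u : 𝓞 K) = ta ^ k := by
  obtain ⟨m, n, hu⟩ := exists_coords (u : 𝓞 K)
  have h3 := unit_form u hu
  have hq := ta_quad
  rw [h1, h2] at h3 hq
  have hq' : (ta : 𝓞 K) ^ 2 = ta - 1 := by rw [hq]; push_cast; ring
  obtain ⟨a1, a2⟩ := ell_le_one (x := m) (by nlinarith [sq_nonneg (m + 2 * n)])
  obtain ⟨b1, b2⟩ := ell_le_one (x := n) (by nlinarith [sq_nonneg (2 * m + n)])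
  rw [hu]
  have hm : m = -1 ∨ m = 0 ∨ m = 1 := by omega
  have hn : n = -1 ∨ n = 0 ∨ n = 1 := by omega
  rcases hm with rfl | rfl | rfl <;> rcases hn with rfl | rfl | rfl <;> try omega
  · exact ⟨3, by norm_num, by push_cast; linear_combination -(ta + 1) * hq'⟩
  · exact ⟨2, by norm_num, by push_cast; linear_combination -hq'⟩
  · exact ⟨4, by norm_num, by push_cast; linear_combination -(ta ^ 2 + ta) * hq'⟩
  · exact ⟨1, by norm_num, by push_cast; ring⟩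
  · exact ⟨5, by norm_num, by push_cast; linear_combination -(ta ^ 3 + ta ^ 2 - 1) * hq'⟩
  · exact ⟨0, by norm_num, by push_cast; ring⟩

/-! ### The square root of the discriminant -/

/-- the square root `2 ta - tr` of the discriminant -/
def rt : 𝓞 K := 2 * ta - (CD.tr : 𝓞 K)

theorem rt_eq : (rt : 𝓞 K) = ((-CD.tr : ℤ) : 𝓞 K) + ((2 : ℤ) : 𝓞 K) * ta := by
  rw [rt]
  push_cast
  ring

theorem rt_sq : (rt : 𝓞 K) ^ 2 = ((CD.tr ^ 2 - 4 * CD.nm : ℤ) : 𝓞 K) := by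
  rw [rt]
  push_cast
  linear_combination 4 * ta_quad

theorem absNorm_rt :
    ((Ideal.absNorm (Ideal.span {(rt : 𝓞 K)}) : ℕ) : ℤ) = 4 * CD.nm - CD.tr ^ 2 := by
  rw [rt_eq, absNorm_form]
  ring

theorem cj_rt : cj (rt : 𝓞 K) = -rt := by
  rw [rt_eq, cj_coords]
  push_cast
  ring

/-- the conjugation is trivial modulo the square root of the discriminant -/
theorem rt_dvd_sub_cj (a : 𝓞 K) : (rt : 𝓞 K) ∣ a - cj a := by
  obtain ⟨m, n, rfl⟩ := exists_coords a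
  refine ⟨(n : 𝓞 K), ?_⟩
  rw [cj_coords, rt]
  push_cast
  ring

/-- For `ℚ(√-2)`: `ta ^ 2 = -2`. -/
theorem ta_sq_two (h1 : CD.tr = 0) (h2 : CD.nm = 2) :
    (ta : 𝓞 K) ^ 2 = -2 ∧ Ideal.absNorm (Ideal.span {(ta : 𝓞 K)}) = 2 := by
  have hq := ta_quad
  rw [h1, h2] at hq
  refine ⟨by rw [hq]; push_cast; ring, ?_⟩
  have h3 := ell_norm (m := 0) (n := 1) (l := 2) (by rw [h1, h2]; norm_num)
  have h4 : (((0 : ℤ) : 𝓞 K) + ((1 : ℤ) : 𝓞 K) * ta) = ta := by push_cast; ring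
  rwa [h4] at h3

/-- For `ℚ(i)`: `ta ^ 2 = -1`. -/
theorem ta_sq_four (h1 : CD.tr = 0) (h2 : CD.nm = 1) : (ta : 𝓞 K) ^ 2 = -1 := by
  have hq := ta_quad
  rw [h1, h2] at hq
  rw [hq]
  push_cast
  ring

/-- the prime number `p`, `K = ℚ(√-p)` -/
theorem exists_p (h : ((CD.tr, CD.nm) : ℤ × ℤ) ∈ oList) :
    ∃ p : ℕ, p.Prime ∧ (p : ℤ) = 4 * CD.nm - CD.tr ^ 2 ∧ CD.tr = 1 ∧ p % 4 = 3 ∧ 7 ≤ p := by
  simp only [oList, List.mem_cons, Prod.mk.injEq, List.not_mem_nil, or_false] at h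
  rcases h with ⟨h1, h2⟩ | ⟨h1, h2⟩ | ⟨h1, h2⟩ | ⟨h1, h2⟩ | ⟨h1, h2⟩ | ⟨h1, h2⟩
  · exact ⟨7, by norm_num, by rw [h1, h2]; norm_num, h1, by norm_num, by norm_num⟩
  · exact ⟨11, by norm_num, by rw [h1, h2]; norm_num, h1, by norm_num, by norm_num⟩
  · exact ⟨19, by norm_num, by rw [h1, h2]; norm_num, h1, by norm_num, by norm_num⟩
  · exact ⟨43, by norm_num, by rw [h1, h2]; norm_num, h1, by norm_num, by norm_num⟩
  · exact ⟨67, by norm_num, by rw [h1, h2]; norm_num, h1, by norm_num, by norm_num⟩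
  · exact ⟨163, by norm_num, by rw [h1, h2]; norm_num, h1, by norm_num, by norm_num⟩

section
variable {p : ℕ} (hp : (p : ℤ) = 4 * CD.nm - CD.tr ^ 2)
include hp

theorem rt_sq_p : (rt : 𝓞 K) ^ 2 = -(p : 𝓞 K) := by
  rw [rt_sq]
  have h1 : (p : 𝓞 K) = ((p : ℤ) : 𝓞 K) := (Int.cast_natCast p).symm
  rw [h1, hp]
  push_cast
  ring

theorem absNorm_rt_p : Ideal.absNorm (Ideal.span {(rt : 𝓞 K)}) = p := by
  have h1 := absNorm_rt
  rw [← hp] at h1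
  exact_mod_cast h1

theorem rt_dvd_p : (rt : 𝓞 K) ∣ (p : 𝓞 K) := ⟨-rt, by linear_combination rt_sq_p hp⟩

/-- `𝓞 K / rt = 𝔽_p`: the classes -/
theorem exists_int_mod (h1 : CD.tr = 1) (a : 𝓞 K) : ∃ n : ℤ, (rt : 𝓞 K) ∣ a - (n : 𝓞 K) := by
  obtain ⟨m, n, rfl⟩ := exists_coords a
  obtain ⟨r, hr⟩ := rt_dvd_p hp
  have h2 : (p : ℤ) = 4 * CD.nm - 1 := by rw [hp, h1]; norm_num
  have h3 : (p : 𝓞 K) = 4 * (CD.nm : 𝓞 K) - 1 := by
    have h4 : (p : 𝓞 K) = ((p : ℤ) : 𝓞 K) := (Int.cast_natCast p).symm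
    rw [h4, h2]
    push_cast
    ring
  refine ⟨m + 2 * CD.nm * n, (n : 𝓞 K) * (2 * (CD.nm : 𝓞 K) - r * ta), ?_⟩
  have h5 : (rt : 𝓞 K) = 2 * ta - 1 := by rw [rt, h1]; push_cast; ring
  have h6 : (rt : 𝓞 K) * r = 4 * (CD.nm : 𝓞 K) - 1 := by rw [← hr, h3]
  push_cast
  linear_combination (-(n : 𝓞 K) * 2 * (CD.nm : 𝓞 K)) * h5 + (n : 𝓞 K) * ta * h6

/-- `𝓞 K / rt = 𝔽_p`: the integers -/
theorem rt_dvd_int (hpp : p.Prime) (n : ℤ) : (rt : 𝓞 K) ∣ (n : 𝓞 K) ↔ (p : ℤ) ∣ n := by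
  constructor
  · rintro ⟨b, hb⟩
    have h1 : (Algebra.norm ℤ (n : 𝓞 K)) = Algebra.norm ℤ (rt : 𝓞 K) * Algebra.norm ℤ b := by
      rw [hb, map_mul]
    have h2 : Algebra.norm ℤ (n : 𝓞 K) = n ^ 2 := by
      have h3 := norm_form n 0
      have h4 : (n : 𝓞 K) + ((0 : ℤ) : 𝓞 K) * ta = (n : 𝓞 K) := by push_cast; ring
      rw [h4] at h3
      rw [h3]
      ring
    have h3 : Algebra.norm ℤ (rt : 𝓞 K) = p := by
      rw [rt_eq, norm_form, hp]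
      ring
    rw [h2, h3] at h1
    exact (Nat.prime_iff_prime_int.1 hpp).dvd_of_dvd_pow ⟨_, h1⟩
  · rintro ⟨m, rfl⟩
    push_cast
    exact (rt_dvd_p hp).mul_right _

/-- the reduction `𝓞 K → 𝔽_p` modulo the square root of `-p` -/
theorem exists_red (hpp : p.Prime) : ∃ r : 𝓞 K →+* ZMod p,
    Function.Surjective r ∧ (∀ a, r a = 0 ↔ (rt : 𝓞 K) ∣ a) ∧ ∀ a, r (cj a) = r a := by
  have := Fact.mk hpp
  have hcard : Nat.card (𝓞 K ⧸ Ideal.span {(rt : 𝓞 K)}) = p := absNorm_rt_p hp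
  have : Finite (𝓞 K ⧸ Ideal.span {(rt : 𝓞 K)}) :=
    Nat.finite_of_card_ne_zero (by rw [hcard]; exact hpp.ne_zero)
  let _ := Fintype.ofFinite (𝓞 K ⧸ Ideal.span {(rt : 𝓞 K)})
  have hcard' : Fintype.card (𝓞 K ⧸ Ideal.span {(rt : 𝓞 K)}) = p := by
    rw [← Nat.card_eq_fintype_card, hcard]
  let e : ZMod p ≃+* 𝓞 K ⧸ Ideal.span {(rt : 𝓞 K)} := ZMod.ringEquivOfPrime _ hpp hcard'
  have hz : ∀ a : 𝓞 K, (e.symm.toRingHom.comp (Ideal.Quotient.mk (Ideal.span {(rt : 𝓞 K)}))) a = 0 ↔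
      (rt : 𝓞 K) ∣ a := by
    intro a
    rw [← Ideal.mem_span_singleton, ← Ideal.Quotient.eq_zero_iff_mem]
    exact map_eq_zero_iff e.symm e.symm.injective
  refine ⟨e.symm.toRingHom.comp (Ideal.Quotient.mk _),
    e.symm.surjective.comp Ideal.Quotient.mk_surjective, hz, fun a => ?_⟩
  have h2 := (hz (a - cj a)).2 (rt_dvd_sub_cj a)
  rw [map_sub, sub_eq_zero] at h2
  exact h2.symm

end

end

end Pool.Agent.Lib.MP_1a91b9_nuX.UF
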