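import Pool.Agent.Lib.MP_1a91b9_nuX.UF.Main
import Pool.Agent.Lib.MP_1a91b9_nuT.Mult.Inst

/-!
# The class `CD` from the invariant `j`

Every curve `y² = x³ + A x + B` with integral coefficients whose invariant `j` is one of the nine
values of class number one has, after scaling by an integer `u`, the data `CD`.
-/

set_option autoImplicit false

namespace Pool.Agent.Lib.MP_1a91b9_nuX.UF

open NumberField Polynomial Pool.Agent.Lib.MP_1a91b9_nuT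

noncomputable section

/-- The class `CD` from the lattice, with trace and norm of `ta`; `m` is an additional factor of
the bad integer. -/
theorem exists_CD' (K : Type) [Field K] [NumberField K] [IsPrincipalIdealRing (𝓞 K)]
    (emb : K →ₐ[ℚ] ℂ)
    (ta : 𝓞 K) (gen : ∀ a : 𝓞 K, ∃ m n : ℤ, a = (m : 𝓞 K) + (n : 𝓞 K) * ta)
    (im : (emb (ta : K)).im ≠ 0) (tr nm : ℤ)
    (quad : ta ^ 2 = (tr : 𝓞 K) * ta - (nm : 𝓞 K))
    (A B : ℤ) (disc : 4 * A ^ 3 + 27 * B ^ 2 ≠ 0)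
    (jint : 4 * A ^ 3 + 27 * B ^ 2 ∣ 6912 * A ^ 3) (Om : ℂ)
    (Om_ne : Om ≠ 0)
    (g2 : (mkPP (emb (ta : K)) im).g₂ = -4 * (A : ℂ) * Om ^ 4)
    (g3 : (mkPP (emb (ta : K)) im).g₃ = -4 * (B : ℂ) * Om ^ 6) (m : ℤ) (hm : m ≠ 0) :
    ∃ (u : ℤ) (_ : u ≠ 0) (c : CD) (e : K ≃+* c.K), c.A = u ^ 4 * A ∧ c.B = u ^ 6 * B ∧
      m ∣ c.bad ∧ (∀ x, c.emb (e x) = emb x) ∧ e (ta : K) = (c.ta : c.K) ∧ c.tr = tr ∧
      c.nm = nm := by
  have hqC : emb (ta : K) ^ 2 = tr * emb (ta : K) - (nm : ℂ) := by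
    have h1 := congrArg (fun x : 𝓞 K => emb (x : K)) quad
    simp only [map_pow, map_sub, map_mul, map_intCast] at h1
    exact h1
  have hnm := Mult.nm_pos im hqC
  obtain ⟨n, hn⟩ : ∃ n : ℕ, nm = n := ⟨nm.toNat, (Int.toNat_of_nonneg hnm.1.le).symm⟩
  subst hn
  have quad' : ta ^ 2 = (tr : 𝓞 K) * ta - (n : 𝓞 K) := by
    rw [quad, Int.cast_natCast]
  obtain ⟨u, Nt, Dt, b1, b2, b3, b4, b5, b6, b7, b8, b9⟩ :=
    Mult.exists_data emb ta im tr n quad' A B Om_ne g2 g3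
  have hu : (u : ℂ) ≠ 0 := Int.cast_ne_zero.2 b1
  have hdd : 4 * (u ^ 4 * A) ^ 3 + 27 * (u ^ 6 * B) ^ 2 = u ^ 12 * (4 * A ^ 3 + 27 * B ^ 2) := by
    ring
  have hdisc : 4 * (u ^ 4 * A) ^ 3 + 27 * (u ^ 6 * B) ^ 2 ≠ 0 := by
    rw [hdd]
    exact mul_ne_zero (pow_ne_zero _ b1) disc
  have hjint : 4 * (u ^ 4 * A) ^ 3 + 27 * (u ^ 6 * B) ^ 2 ∣ 6912 * (u ^ 4 * A) ^ 3 := by
    have e1 : 6912 * (u ^ 4 * A) ^ 3 = u ^ 12 * (6912 * A ^ 3) := by ring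
    rw [hdd, e1]
    exact mul_dvd_mul_left _ jint
  have hg2 : (mkPP (emb (ta : K)) im).g₂ = -4 * ((u ^ 4 * A : ℤ) : ℂ) * (Om / u) ^ 4 := by
    rw [g2]
    push_cast
    field_simp
  have hg3 : (mkPP (emb (ta : K)) im).g₃ = -4 * ((u ^ 6 * B : ℤ) : ℂ) * (Om / u) ^ 6 := by
    rw [g3]
    push_cast
    field_simp
  have hbad : m * (6 * (4 * (u ^ 4 * A) ^ 3 + 27 * (u ^ 6 * B) ^ 2) * n * (tr ^ 2 - 4 * n)) ≠ 0 :=
    mul_ne_zero hm (mul_ne_zero (mul_ne_zero (mul_ne_zero (by norm_num) hdisc) hnm.1.ne')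
      hnm.2.ne)
  let c : CD :=
    { K := K
      emb := emb
      ta := ta
      gen := gen
      im := im
      tr := tr
      nm := n
      quad := quad
      A := u ^ 4 * A
      B := u ^ 6 * B
      disc := hdisc
      jint := hjint
      Om := Om / u
      Om_ne := div_ne_zero Om_ne hu
      g2 := hg2
      g3 := hg3
      Nt := Nt
      Dt := Dt
      Nt_monic := b2
      Nt_deg := by rw [b3]
      Dt_deg := b4
      Dt_lead := b5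
      Nt_lo := b6
      Dt_lo := b7
      cop := b8
      mulx := b9
      bad := m * (6 * (4 * (u ^ 4 * A) ^ 3 + 27 * (u ^ 6 * B) ^ 2) * n * (tr ^ 2 - 4 * n))
      bad_ne := hbad
      bad_dvd := Dvd.intro_left m rfl }
  exact ⟨u, b1, c, RingEquiv.refl K, rfl, rfl, Dvd.intro _ rfl, fun x => rfl, rfl, rfl, rfl⟩

/-- The class `CD` from the invariant `j`; `m` is an additional factor of the bad integer; the
field is `ℚ(t)`, `t ^ 2 = tr t - nm`. -/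
theorem exists_cd {A B J : ℤ} (h : 4 * A ^ 3 + 27 * B ^ 2 ≠ 0)
    (hj : 6912 * A ^ 3 = J * (4 * A ^ 3 + 27 * B ^ 2)) (hJ : J ∈ jList.map Prod.fst)
    (m : ℤ) (hm : m ≠ 0) :
    ∃ (tr nm : ℤ) (k : ℕ) (hg : Good tr nm k) (u : ℤ) (_ : u ≠ 0) (c : CD)
      (e : KK tr nm hg.pos ≃+* c.K),
      (J, tr, nm) ∈ jList ∧ c.tr = tr ∧ c.nm = nm ∧ c.A = u ^ 4 * A ∧ c.B = u ^ 6 * B ∧
      m ∣ c.bad ∧ (∀ x, c.emb (e x) = (x : ℂ)) ∧
      e (taK tr nm hg.pos : KK tr nm hg.pos) = (c.ta : c.K) := by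
  obtain ⟨tr, nm, k, hg, h1, Om, hOm, e2, e3⟩ := exists_data h hj hJ
  have hpid : IsPrincipalIdealRing (𝓞 (KK tr nm hg.pos)) := pid_KK hg
  obtain ⟨u, hu, c, e, hA, hB, hbad, hemb, hta, htr, hnm⟩ := exists_CD' (KK tr nm hg.pos)
    (embKK tr nm hg.pos) (taK tr nm hg.pos) (gen_KK hg) (im_KK hg.pos) tr nm (quad_KK hg.pos) A B h
    ⟨J, by rw [hj, mul_comm]⟩ Om hOm e2 e3 m hm
  exact ⟨tr, nm, k, hg, u, hu, c, e, h1, htr, hnm, hA, hB, hbad, fun x => hemb x, hta⟩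

end

end Pool.Agent.Lib.MP_1a91b9_nuX.UF
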