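import Pool.Agent.Lib.MP_1a91b9_nuX.TG.Main
import Pool.Agent.Lib.MP_1a91b9_nuX.HW.Top
import Pool.Agent.Lib.MP_1a91b9_nuX.UF.Cd

/-!
# Theorem G3: towers over abelian fields for all the curves with complex multiplication by a
maximal order of class number one
-/

set_option autoImplicit false

namespace Pool.Agent.Lib.MP_1a91b9_nuX.UF

open NumberField IsDedekindDomain Module WeierstrassCurve Pool.Agent.Lib.MP_1a91b9_nuT
open Pool.Agent.Lib.MP_1a91b9_nuX.TG (RamX Tw ConclR)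

/-- The nine invariants and the discriminants of the fields of complex multiplication. -/
def jd : List (ℤ × ℤ) :=
  [(0, -3), (1728, -4), (-3375, -7), (8000, -8), (-32768, -11), (-884736, -19),
    (-884736000, -43), (-147197952000, -67), (-262537412640768000, -163)]

/-- the nine values -/
theorem jd_mem {J d : ℤ} (h : (J, d) ∈ jd) : J ∈ jList.map Prod.fst := by
  have e : jList.map Prod.fst = jd.map Prod.fst := by decide
  rw [e]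
  exact List.mem_map_of_mem h

/-- the discriminants -/
theorem jd_disc {J d tr nm : ℤ} (h : (J, d) ∈ jd) (h2 : (J, tr, nm) ∈ jList) :
    d = tr ^ 2 - 4 * nm := by
  simp only [jd, jList, List.mem_cons, Prod.mk.injEq, List.not_mem_nil, or_false] at h h2
  rcases h with ⟨rfl, rfl⟩ | ⟨rfl, rfl⟩ | ⟨rfl, rfl⟩ | ⟨rfl, rfl⟩ | ⟨rfl, rfl⟩ | ⟨rfl, rfl⟩ |
    ⟨rfl, rfl⟩ | ⟨rfl, rfl⟩ | ⟨rfl, rfl⟩ <;>
  rcases h2 with ⟨h0, rfl, rfl⟩ | ⟨h0, rfl, rfl⟩ | ⟨h0, rfl, rfl⟩ | ⟨h0, rfl, rfl⟩ |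
    ⟨h0, rfl, rfl⟩ | ⟨h0, rfl, rfl⟩ | ⟨h0, rfl, rfl⟩ | ⟨h0, rfl, rfl⟩ | ⟨h0, rfl, rfl⟩ <;>
  first
  | (exfalso; revert h0; norm_num; done)
  | norm_num

/-- the number of units -/
theorem jd_ww {J d A B : ℤ} (h : (J, d) ∈ jd) (hAB : 4 * A ^ 3 + 27 * B ^ 2 ≠ 0)
    (hj : 6912 * A ^ 3 = J * (4 * A ^ 3 + 27 * B ^ 2)) :
    (if d = -3 then 6 else 2 : ℕ) = if A = 0 then 6 else 2 := by
  have h1 : d = -3 ↔ J = 0 := by
    simp only [jd, List.mem_cons, Prod.mk.injEq, List.not_mem_nil, or_false] at h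
    rcases h with ⟨rfl, rfl⟩ | ⟨rfl, rfl⟩ | ⟨rfl, rfl⟩ | ⟨rfl, rfl⟩ | ⟨rfl, rfl⟩ | ⟨rfl, rfl⟩ |
      ⟨rfl, rfl⟩ | ⟨rfl, rfl⟩ | ⟨rfl, rfl⟩ <;> norm_num
  have h2 : J = 0 ↔ A = 0 := by
    constructor
    · rintro rfl
      have h3 : A ^ 3 = 0 := by linarith
      exact pow_eq_zero_iff (three_ne_zero) |>.mp h3
    · rintro rfl
      rcases mul_eq_zero.mp (hj.symm.trans (by ring : (6912 : ℤ) * 0 ^ 3 = 0)) with h3 | h3
      · exact h3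
      · exact absurd h3 hAB
  simp only [h1, h2]

/-- the nine fields -/
theorem jd_case {J tr nm : ℤ} (h : (J, tr, nm) ∈ jList) :
    ((tr, nm) : ℤ × ℤ) ∈ qList ∨ (tr = 0 ∧ nm = 1) ∨ (tr = 1 ∧ nm = 1) := by
  simp only [jList, List.mem_cons, Prod.mk.injEq, List.not_mem_nil, or_false] at h
  simp only [qList, List.mem_cons, Prod.mk.injEq, List.not_mem_nil, or_false]
  rcases h with ⟨-, rfl, rfl⟩ | ⟨-, rfl, rfl⟩ | ⟨-, rfl, rfl⟩ | ⟨-, rfl, rfl⟩ |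
    ⟨-, rfl, rfl⟩ | ⟨-, rfl, rfl⟩ | ⟨-, rfl, rfl⟩ | ⟨-, rfl, rfl⟩ | ⟨-, rfl, rfl⟩ <;> norm_num

/-- The conclusion for all the fields of the tower; `e` is the degree of the base field over the
field of complex multiplication and `d` is the discriminant of that field. -/
def TowD (ℓ : ℕ) (A B d c : ℤ) (e : ℕ) (F₀ : Type) [Field F₀] [NumberField F₀] : Prop :=
  ∀ (n : ℕ) (N L M : Type) [Field N] [NumberField N] [Field L] [NumberField L] [Field M]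
    [NumberField M] [Algebra N L] [Algebra F₀ L] [Algebra L M] [Algebra F₀ M]
    [IsScalarTower F₀ L M] [IsGalois F₀ M], finrank F₀ M = ℓ ^ n → RamX ℓ A B c F₀ L →
    ∀ (W : WeierstrassCurve N) (C : VariableChange L),
      C • W.baseChange L = ⟨0, 0, 0, ((A : ℤ) : L), ((B : ℤ) : L)⟩ →
      (¬ e.Coprime (if d = -3 then 6 else 2) → Tw A B d W) →
      ConclR W ∧ ∀ _ : Fact ℓ.Prime, MP_1a91b9_nuT.PL.Concl ℓ W

/-- The ramification indices above `6 (4 A³ + 27 B²)` are prime to `2` (to `6` if `d = -3`). -/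
def RamD (A B d : ℤ) (k F₀ : Type) [Field k] [NumberField k] [Field F₀] [NumberField F₀]
    [Algebra k F₀] : Prop :=
  ∀ w : HeightOneSpectrum (𝓞 F₀), ((6 * (4 * A ^ 3 + 27 * B ^ 2) : ℤ) : 𝓞 F₀) ∈ w.asIdeal →
    (w.asIdeal.ramificationIdx (𝓞 k)).Coprime (if d = -3 then 6 else 2)

/-- **Theorem G3.** -/
theorem thmG (K₀ N₀ F₀ L₀ : Type) [Field K₀] [NumberField K₀] [Field N₀] [NumberField N₀]
    [Field F₀] [NumberField F₀] [Field L₀] [NumberField L₀] [DecidableEq L₀] [Algebra K₀ F₀]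
    [Algebra N₀ F₀] [Algebra K₀ L₀] [Algebra F₀ L₀] [IsScalarTower K₀ F₀ L₀]
    (hK : finrank ℚ K₀ = 2) {J d A B c : ℤ} (hJd : (J, d) ∈ jd)
    (hd : ∃ w : K₀, w ^ 2 = ((d : ℤ) : K₀)) (hAB : 4 * A ^ 3 + 27 * B ^ 2 ≠ 0)
    (hj : 6912 * A ^ 3 = J * (4 * A ^ 3 + 27 * B ^ 2)) (hc : c ≠ 0)
    (hN : IntermediateField.adjoin N₀ (Set.range (algebraMap K₀ F₀)) = ⊤) (x y : L₀)
    (hxy : (⟨0, 0, 0, ((A : ℤ) : L₀), ((B : ℤ) : L₀)⟩ :
      WeierstrassCurve L₀).toAffine.Nonsingular x y)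
    (ht : IsOfFinAddOrder (Affine.Point.some x y hxy))
    (hL₀ : IntermediateField.adjoin K₀ {x, y} = ⊤)
    (hr : ¬ (finrank K₀ F₀).Coprime (if d = -3 then 6 else 2) → RamD A B d K₀ F₀)
    (hg : ∃ g : ℂ → ℂ, Differentiable ℂ g ∧ (∀ s : ℂ, 3 / 2 < s.re →
      g s = (⟨0, 0, 0, ((A : ℤ) : N₀), ((B : ℤ) : N₀)⟩ : WeierstrassCurve N₀).LSeries s) ∧
      g 1 ≠ 0) :
    ∃ S : Finset ℕ, ∀ ℓ : ℕ, ℓ.Prime → ℓ ∉ S → TowD ℓ A B d c (finrank K₀ F₀) F₀ := by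
  have hJ : J ∈ jList.map Prod.fst := jd_mem hJd
  obtain ⟨tr, nm, -, hg', u, hu, cd, -, hmem, htr, hnm, hA, hB, -, -, -⟩ :=
    exists_cd hAB hj hJ 1 one_ne_zero
  subst htr
  subst hnm
  have hdd : d = CD.tr ^ 2 - 4 * CD.nm := jd_disc hJd hmem
  have hww : (if d = -3 then 6 else 2) = if A = 0 then 6 else 2 := jd_ww hJd hAB hj
  have hcase := jd_case hmem
  have hE := HW.ellK_all hcase
  obtain ⟨f, p, hp⟩ := HW.hdat_all hcase
  let iH : HC := ⟨f, p, hp⟩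
  obtain ⟨w, hw⟩ := hd
  have hw' : ((w + (CD.tr : K₀)) / 2) ^ 2 = (CD.tr : K₀) * ((w + (CD.tr : K₀)) / 2) - (CD.nm : K₀) := by
    rw [hdd] at hw
    push_cast at hw
    linear_combination hw / 4
  rw [hww] at hr
  obtain ⟨S, hS⟩ := TG.thmX hE K₀ N₀ F₀ L₀ hK hw' (k := u) hu hA hB hc hN x y hxy ht hL₀
    (fun h w hw => by
      have h1 := hr h w hw
      rwa [hww] at h1) hg
  refine ⟨S, fun ℓ hℓ hn => ?_⟩
  have h1 := hS ℓ hℓ hn
  rw [show LF.dK = d from hdd.symm] at h1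
  intro n N L M _ _ _ _ _ _ _ _ _ _ _ _ hM hL W C hC hW
  rw [hww] at hW
  exact h1 n N L M hM hL W C hC hW

end Pool.Agent.Lib.MP_1a91b9_nuX.UF
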