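import Mathlib

/-!
# Rational functions with the differential equation of `℘ (t z)`

`L` a period pair with `g₂ = -4 A`, `g₃ = -4 B`. If the rational function `R = N / D` satisfies
`(x ^ 3 + A x + B) (N' D - N D') ^ 2 = t ^ 2 D (N ^ 3 + A N D ^ 2 + B D ^ 3)`, `N` is monic of degree
`deg D + 1` and `D` has the leading coefficient `t ^ 2`, then `R (℘ z) = ℘ (t z)` and the
lattice is stable under the multiplication by `t`.
-/

set_option autoImplicit false

namespace Pool.Agent.Lib.MP_1a91b9_nuX.UF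

open Filter Topology

noncomputable section

/-- Uniqueness of the solution with a double pole. -/
theorem local_unique {t A B : ℂ} (ht : t ≠ 0) {F G : ℂ → ℂ} (hF : AnalyticAt ℂ F 0)
    (hG : AnalyticAt ℂ G 0) (hF0 : F 0 = (t ^ 2)⁻¹) (hG0 : G 0 = (t ^ 2)⁻¹)
    (hFe : ∀ᶠ z in 𝓝[≠] (0 : ℂ), (z * deriv F z - 2 * F z) ^ 2 =
      4 * t ^ 2 * (F z ^ 3 + A * z ^ 4 * F z + B * z ^ 6))
    (hGe : ∀ᶠ z in 𝓝[≠] (0 : ℂ), (z * deriv G z - 2 * G z) ^ 2 =
      4 * t ^ 2 * (G z ^ 3 + A * z ^ 4 * G z + B * z ^ 6)) :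
    ∀ᶠ z in 𝓝 (0 : ℂ), F z = G z := by
  have ht2 : t ^ 2 ≠ 0 := pow_ne_zero 2 ht
  by_contra hcon
  have hw : AnalyticAt ℂ (fun z => F z - G z) 0 := hF.sub hG
  have h0 : ¬ ∀ᶠ z in 𝓝 (0 : ℂ), F z - G z = 0 := by
    intro h
    exact hcon (h.mono fun z hz => sub_eq_zero.mp hz)
  obtain ⟨k, v, hv, hv0, hFG⟩ := hw.exists_eventuallyEq_pow_smul_nonzero_iff.2 h0
  simp only [sub_zero, smul_eq_mul] at hFG
  have hFa := hF.eventually_analyticAt
  have hGa := hG.eventually_analyticAt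
  have hva := hv.eventually_analyticAt
  have hder : ∀ᶠ z in 𝓝 (0 : ℂ), z * (deriv F z - deriv G z) =
      z ^ k * (k * v z + z * deriv v z) := by
    filter_upwards [hFG.eventually_nhds, hFa, hGa, hva] with z h1 h2 h3 h4
    have h5 : deriv (fun z => F z - G z) z = deriv F z - deriv G z :=
      deriv_fun_sub h2.differentiableAt h3.differentiableAt
    have h6 : deriv (fun z => F z - G z) z = deriv (fun z => z ^ k * v z) z :=
      Filter.EventuallyEq.deriv_eq h1
    have h7 : deriv (fun z => z ^ k * v z) z = k * z ^ (k - 1) * v z + z ^ k * deriv v z := by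
      have h8 := (hasDerivAt_pow k z).mul h4.differentiableAt.hasDerivAt
      exact h8.deriv
    rw [← h5, h6, h7]
    rcases Nat.eq_zero_or_pos k with hk | hk
    · subst hk
      simp
    · have h9 : z ^ k = z ^ (k - 1) * z := by
        rw [← pow_succ]
        congr 1
        omega
      rw [h9]
      ring
  -- the equation for `v`
  have heq : ∀ᶠ z in 𝓝[≠] (0 : ℂ), ((k - 2) * v z + z * deriv v z) *
      (z * (deriv F z + deriv G z) - 2 * (F z + G z)) =
      4 * t ^ 2 * v z * (F z ^ 2 + F z * G z + G z ^ 2 + A * z ^ 4) := by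
    filter_upwards [hFe, hGe, mem_nhdsWithin_of_mem_nhds hFG, mem_nhdsWithin_of_mem_nhds hder,
      self_mem_nhdsWithin] with z h1 h2 h3 h4 h5
    have h6 : z ^ k ≠ 0 := pow_ne_zero _ h5
    apply mul_left_cancel₀ h6
    have h7 : z ^ k * (((k - 2) * v z + z * deriv v z) *
        (z * (deriv F z + deriv G z) - 2 * (F z + G z))) =
        (z * (deriv F z - deriv G z) - 2 * (F z - G z)) *
        (z * (deriv F z + deriv G z) - 2 * (F z + G z)) := by
      rw [h3, h4]
      ring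
    have h8 : z ^ k * (4 * t ^ 2 * v z * (F z ^ 2 + F z * G z + G z ^ 2 + A * z ^ 4)) =
        4 * t ^ 2 * (F z - G z) * (F z ^ 2 + F z * G z + G z ^ 2 + A * z ^ 4) := by
      rw [h3]
      ring
    rw [h7, h8]
    linear_combination h1 - h2
  have hcv : ContinuousAt v 0 := hv.continuousAt
  have hcF : ContinuousAt F 0 := hF.continuousAt
  have hcG : ContinuousAt G 0 := hG.continuousAt
  have hcv' : ContinuousAt (deriv v) 0 := hv.deriv.continuousAt
  have hcF' : ContinuousAt (deriv F) 0 := hF.deriv.continuousAt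
  have hcG' : ContinuousAt (deriv G) 0 := hG.deriv.continuousAt
  have hL : ContinuousAt (fun z => ((k - 2) * v z + z * deriv v z) *
      (z * (deriv F z + deriv G z) - 2 * (F z + G z))) 0 := by fun_prop
  have hR : ContinuousAt (fun z => 4 * t ^ 2 * v z *
      (F z ^ 2 + F z * G z + G z ^ 2 + A * z ^ 4)) 0 := by fun_prop
  have hlim := tendsto_nhds_unique_of_eventuallyEq (hL.tendsto.mono_left nhdsWithin_le_nhds)
    (hR.tendsto.mono_left nhdsWithin_le_nhds) heq
  simp only [hF0, hG0, zero_mul, add_zero, zero_sub] at hlim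
  have h1 : ((k : ℂ) + 1) * v 0 = 0 := by
    have h2 : t ^ 2 * (t ^ 2)⁻¹ = 1 := mul_inv_cancel₀ ht2
    have h3 : ((k : ℂ) - 2) * v 0 * (-(2 * ((t ^ 2)⁻¹ + (t ^ 2)⁻¹))) * t ^ 2 =
        4 * t ^ 2 * v 0 * ((t ^ 2)⁻¹ ^ 2 + (t ^ 2)⁻¹ * (t ^ 2)⁻¹ + (t ^ 2)⁻¹ ^ 2 + A * 0 ^ 4) *
          t ^ 2 := by
      rw [hlim]
    have h4 : ((k : ℂ) - 2) * v 0 * (-(2 * ((t ^ 2)⁻¹ + (t ^ 2)⁻¹))) * t ^ 2 =
        -4 * ((k : ℂ) - 2) * v 0 := by
      linear_combination (-4 * ((k : ℂ) - 2) * v 0) * h2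
    have h5 : 4 * t ^ 2 * v 0 * ((t ^ 2)⁻¹ ^ 2 + (t ^ 2)⁻¹ * (t ^ 2)⁻¹ + (t ^ 2)⁻¹ ^ 2 + A * 0 ^ 4) *
        t ^ 2 = 12 * v 0 := by
      linear_combination (12 * v 0) * (t ^ 2 * (t ^ 2)⁻¹ + 1) * h2
    rw [h4, h5] at h3
    linear_combination -h3 / 4
  rcases mul_eq_zero.mp h1 with h2 | h2
  · have h3 : ((k + 1 : ℕ) : ℂ) = 0 := by
      push_cast
      exact h2
    exact absurd (Nat.cast_eq_zero.mp h3) (by omega)
  · exact hv0 h2

variable (L : PeriodPair)

/-- `z ^ 2 ℘ z` made analytic at `0`. -/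
def Qf (z : ℂ) : ℂ := 1 + z ^ 2 * L.weierstrassPExcept 0 z

theorem Qf_analytic : AnalyticAt ℂ (Qf L) 0 := by
  unfold Qf
  have h1 := L.analyticAt_weierstrassPExcept 0
  fun_prop

theorem Qf_zero : Qf L 0 = 1 := by
  unfold Qf
  simp

theorem Qf_eq {z : ℂ} (hz : z ≠ 0) : Qf L z = z ^ 2 * L.weierstrassP z := by
  have h := L.weierstrassPExcept_add 0 z
  rw [← h]
  unfold Qf
  rw [ZeroMemClass.coe_zero, sub_zero, zero_pow two_ne_zero, div_zero, sub_zero]
  have h2 : z ^ 2 * (1 / z ^ 2) = 1 := mul_one_div_cancel (pow_ne_zero 2 hz)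
  linear_combination -h2

theorem eventually_notMem : ∀ᶠ z in 𝓝[≠] (0 : ℂ), z ∉ L.lattice := by
  have h1 := L.compl_lattice_sdiff_singleton_mem_nhds 0
  filter_upwards [mem_nhdsWithin_of_mem_nhds h1, self_mem_nhdsWithin] with z h2 h3 h4
  exact h2 ⟨h4, h3⟩

theorem tendsto_mul {t : ℂ} (ht : t ≠ 0) :
    Tendsto (fun z : ℂ => t * z) (𝓝[≠] 0) (𝓝[≠] 0) := by
  refine tendsto_nhdsWithin_iff.mpr ⟨?_, ?_⟩
  · have h1 : ContinuousAt (fun z : ℂ => t * z) 0 := by fun_prop
    have h2 := h1.tendsto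
    rw [mul_zero] at h2
    exact h2.mono_left nhdsWithin_le_nhds
  · filter_upwards [self_mem_nhdsWithin] with z hz
    exact mul_ne_zero ht hz

theorem hasDerivAt_P {z : ℂ} (hz : z ∉ L.lattice) :
    HasDerivAt L.weierstrassP (L.derivWeierstrassP z) z := by
  have h1 := (L.analyticOnNhd_weierstrassP z hz).differentiableAt.hasDerivAt
  rwa [L.deriv_weierstrassP] at h1

/-- The equation for `z ^ 2 f z` from the equation for `f`. -/
theorem ode_transfer {t A B : ℂ} {f f' F : ℂ → ℂ} {z : ℂ}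
    (hFf : ∀ᶠ w in 𝓝 z, F w = w ^ 2 * f w) (hf : HasDerivAt f (f' z) z)
    (he : f' z ^ 2 = 4 * t ^ 2 * (f z ^ 3 + A * f z + B)) :
    (z * deriv F z - 2 * F z) ^ 2 = 4 * t ^ 2 * (F z ^ 3 + A * z ^ 4 * F z + B * z ^ 6) := by
  have h1 : deriv F z = deriv (fun w => w ^ 2 * f w) z := Filter.EventuallyEq.deriv_eq hFf
  have h2 : deriv (fun w => w ^ 2 * f w) z = (2 : ℕ) * z ^ (2 - 1) * f z + z ^ 2 * f' z :=
    ((hasDerivAt_pow 2 z).mul hf).deriv
  rw [h1, h2, hFf.self_of_nhds]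
  have h3 : z * (((2 : ℕ) : ℂ) * z ^ (2 - 1) * f z + z ^ 2 * f' z) - 2 * (z ^ 2 * f z) =
      z ^ 3 * f' z := by
    push_cast
    ring
  rw [h3, mul_pow, he]
  ring

/-- homogenization -/
def Ph (P : Polynomial ℂ) (m : ℕ) (q w : ℂ) : ℂ :=
  ∑ i ∈ Finset.range (m + 1), P.coeff i * q ^ i * w ^ (m - i)

theorem Ph_zero (P : Polynomial ℂ) (m : ℕ) (q : ℂ) : Ph P m q 0 = P.coeff m * q ^ m := by
  unfold Ph
  rw [Finset.sum_range_succ, Nat.sub_self, pow_zero, mul_one, Finset.sum_eq_zero, zero_add]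
  intro i hi
  rw [Finset.mem_range] at hi
  rw [zero_pow (by omega), mul_zero]

theorem Ph_eq (P : Polynomial ℂ) {m : ℕ} (hm : P.natDegree = m) {x w : ℂ} :
    Ph P m (w * x) w = w ^ m * P.eval x := by
  subst hm
  unfold Ph
  rw [Polynomial.eval_eq_sum_range, Finset.mul_sum]
  refine Finset.sum_congr rfl fun i hi => ?_
  rw [Finset.mem_range] at hi
  have h1 : w ^ P.natDegree = w ^ i * w ^ (P.natDegree - i) := by
    rw [← pow_add]
    congr 1
    omega
  rw [h1, mul_pow]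
  ring

theorem Ph_analytic (P : Polynomial ℂ) (m : ℕ) {q w : ℂ → ℂ} {z : ℂ} (hq : AnalyticAt ℂ q z)
    (hw : AnalyticAt ℂ w z) : AnalyticAt ℂ (fun z => Ph P m (q z) (w z)) z := by
  unfold Ph
  refine Finset.analyticAt_fun_sum _ fun i _ => ?_
  fun_prop

section main

variable {L}
variable {t A B : ℂ} (ht : t ≠ 0) (hg2 : L.g₂ = -4 * A) (hg3 : L.g₃ = -4 * B)
  {N D : Polynomial ℂ} (hN : N.Monic) (hD : D.leadingCoeff = t ^ 2)
  (hdeg : N.natDegree = D.natDegree + 1)
  (hid : (Polynomial.X ^ 3 + Polynomial.C A * Polynomial.X + Polynomial.C B) *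
    (Polynomial.derivative N * D - N * Polynomial.derivative D) ^ 2 =
    Polynomial.C (t ^ 2) * D * (N ^ 3 + Polynomial.C A * N * D ^ 2 + Polynomial.C B * D ^ 3))

include ht hg2 hg3 hN hD hdeg hid

theorem near_zero : ∀ᶠ z in 𝓝[≠] (0 : ℂ), D.eval (L.weierstrassP z) ≠ 0 ∧
    N.eval (L.weierstrassP z) = L.weierstrassP (t * z) * D.eval (L.weierstrassP z) := by
  have ht2 : t ^ 2 ≠ 0 := pow_ne_zero 2 ht
  obtain ⟨m, hm⟩ : ∃ m, m = D.natDegree := ⟨_, rfl⟩
  rw [← hm] at hdeg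
  have hQ := Qf_analytic L
  let num : ℂ → ℂ := fun z => Ph N (m + 1) (Qf L z) (z ^ 2)
  let den : ℂ → ℂ := fun z => Ph D m (Qf L z) (z ^ 2)
  have hnum : AnalyticAt ℂ num 0 := Ph_analytic N (m + 1) hQ (by fun_prop)
  have hden : AnalyticAt ℂ den 0 := Ph_analytic D m hQ (by fun_prop)
  have hnum0 : num 0 = 1 := by
    change Ph N (m + 1) (Qf L 0) (0 ^ 2) = 1
    rw [zero_pow two_ne_zero, Ph_zero, Qf_zero, one_pow, mul_one, ← hdeg]
    exact hN
  have hden0 : den 0 = t ^ 2 := by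
    change Ph D m (Qf L 0) (0 ^ 2) = t ^ 2
    rw [zero_pow two_ne_zero, Ph_zero, Qf_zero, one_pow, mul_one, hm]
    exact hD
  have hnumE : ∀ z : ℂ, z ≠ 0 → num z = (z ^ 2) ^ (m + 1) * N.eval (L.weierstrassP z) := by
    intro z hz
    change Ph N (m + 1) (Qf L z) (z ^ 2) = _
    rw [Qf_eq L hz, Ph_eq N hdeg]
  have hdenE : ∀ z : ℂ, z ≠ 0 → den z = (z ^ 2) ^ m * D.eval (L.weierstrassP z) := by
    intro z hz
    change Ph D m (Qf L z) (z ^ 2) = _
    rw [Qf_eq L hz, Ph_eq D hm.symm]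
  have hden' : ∀ᶠ z in 𝓝 (0 : ℂ), den z ≠ 0 :=
    hden.continuousAt.eventually_ne (by rw [hden0]; exact ht2)
  let F : ℂ → ℂ := fun z => num z / den z
  let G : ℂ → ℂ := fun z => (t ^ 2)⁻¹ * Qf L (t * z)
  have hF : AnalyticAt ℂ F 0 := hnum.div hden (by rw [hden0]; exact ht2)
  have hG : AnalyticAt ℂ G 0 := by
    refine analyticAt_const.mul ?_
    have h1 : AnalyticAt ℂ (Qf L) (t * 0) := by rw [mul_zero]; exact hQ
    exact h1.fun_comp (analyticAt_const.mul analyticAt_id)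
  have hF0 : F 0 = (t ^ 2)⁻¹ := by
    change num 0 / den 0 = _
    rw [hnum0, hden0, one_div]
  have hG0 : G 0 = (t ^ 2)⁻¹ := by
    change (t ^ 2)⁻¹ * Qf L (t * 0) = _
    rw [mul_zero, Qf_zero, mul_one]
  have hL := eventually_notMem L
  have hLt := (tendsto_mul ht).eventually (eventually_notMem L)
  have hFE : ∀ z : ℂ, z ≠ 0 → F z = z ^ 2 *
      (N.eval (L.weierstrassP z) / D.eval (L.weierstrassP z)) := by
    intro z hz
    change num z / den z = _
    rw [hnumE z hz, hdenE z hz, pow_succ, mul_assoc, mul_div_mul_left _ _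
      (pow_ne_zero m (pow_ne_zero 2 hz)), mul_div_assoc]
  have hGE : ∀ z : ℂ, z ≠ 0 → G z = z ^ 2 * L.weierstrassP (t * z) := by
    intro z hz
    change (t ^ 2)⁻¹ * Qf L (t * z) = _
    rw [Qf_eq L (mul_ne_zero ht hz)]
    have h1 : (t ^ 2)⁻¹ * t ^ 2 = 1 := inv_mul_cancel₀ ht2
    linear_combination (z ^ 2 * L.weierstrassP (t * z)) * h1
  have hode := fun (z : ℂ) (hz : z ∉ L.lattice) => L.derivWeierstrassP_sq z hz
  have hFe : ∀ᶠ z in 𝓝[≠] (0 : ℂ), (z * deriv F z - 2 * F z) ^ 2 =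
      4 * t ^ 2 * (F z ^ 3 + A * z ^ 4 * F z + B * z ^ 6) := by
    filter_upwards [hL, mem_nhdsWithin_of_mem_nhds hden', self_mem_nhdsWithin] with z h1 h2 h3
    have hz : z ≠ 0 := h3
    have hDz : D.eval (L.weierstrassP z) ≠ 0 := by
      intro h
      apply h2
      rw [hdenE z hz, h, mul_zero]
    have hP := hasDerivAt_P L h1
    have hNd := (N.hasDerivAt (L.weierstrassP z)).comp z hP
    have hDd := (D.hasDerivAt (L.weierstrassP z)).comp z hP
    have hfd := hNd.div hDd hDz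
    refine ode_transfer (f := fun w => N.eval (L.weierstrassP w) / D.eval (L.weierstrassP w))
      (f' := fun w => (N.derivative.eval (L.weierstrassP w) * L.derivWeierstrassP w *
        D.eval (L.weierstrassP w) - N.eval (L.weierstrassP w) *
        (D.derivative.eval (L.weierstrassP w) * L.derivWeierstrassP w)) /
        D.eval (L.weierstrassP w) ^ 2) ?_ hfd ?_
    · filter_upwards [eventually_ne_nhds hz] with w hw
      exact hFE w hw
    · have hidz := congrArg (Polynomial.eval (L.weierstrassP z)) hid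
      simp only [Polynomial.eval_mul, Polynomial.eval_add, Polynomial.eval_pow,
        Polynomial.eval_sub, Polynomial.eval_C, Polynomial.eval_X] at hidz
      have hq := hode z h1
      rw [hg2, hg3] at hq
      change ((N.derivative.eval (L.weierstrassP z) * L.derivWeierstrassP z *
        D.eval (L.weierstrassP z) - N.eval (L.weierstrassP z) *
        (D.derivative.eval (L.weierstrassP z) * L.derivWeierstrassP z)) /
        D.eval (L.weierstrassP z) ^ 2) ^ 2 = 4 * t ^ 2 *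
        ((N.eval (L.weierstrassP z) / D.eval (L.weierstrassP z)) ^ 3 +
          A * (N.eval (L.weierstrassP z) / D.eval (L.weierstrassP z)) + B)
      generalize L.weierstrassP z = x at *
      generalize L.derivWeierstrassP z = y at *
      generalize Polynomial.eval x N = n at *
      generalize Polynomial.eval x D = δ at *
      generalize Polynomial.eval x N.derivative = n' at *
      generalize Polynomial.eval x D.derivative = δ' at *
      field_simp
      linear_combination 4 * hidz + (n' * δ - n * δ') ^ 2 * hq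
  have hGe : ∀ᶠ z in 𝓝[≠] (0 : ℂ), (z * deriv G z - 2 * G z) ^ 2 =
      4 * t ^ 2 * (G z ^ 3 + A * z ^ 4 * G z + B * z ^ 6) := by
    filter_upwards [hLt, self_mem_nhdsWithin] with z h1 h3
    have hz : z ≠ 0 := h3
    have hP := hasDerivAt_P L h1
    have hlin : HasDerivAt (fun w : ℂ => t * w) t z := by
      have h4 := (hasDerivAt_id z).const_mul t
      rwa [mul_one] at h4
    have hfd := hP.comp z hlin
    refine ode_transfer (f := fun w => L.weierstrassP (t * w))
      (f' := fun w => L.derivWeierstrassP (t * w) * t) ?_ hfd ?_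
    · filter_upwards [eventually_ne_nhds hz] with w hw
      exact hGE w hw
    · have hq := hode (t * z) h1
      rw [hg2, hg3] at hq
      linear_combination t ^ 2 * hq
  have hFG := local_unique ht hF hG hF0 hG0 hFe hGe
  filter_upwards [hL, hLt, mem_nhdsWithin_of_mem_nhds hden', mem_nhdsWithin_of_mem_nhds hFG,
    self_mem_nhdsWithin] with z h1 h1' h2 h3 h4
  have hz : z ≠ 0 := h4
  have hDz : D.eval (L.weierstrassP z) ≠ 0 := by
    intro h
    apply h2
    rw [hdenE z hz, h, mul_zero]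
  refine ⟨hDz, ?_⟩
  rw [hFE z hz, hGE z hz] at h3
  have h5 := mul_left_cancel₀ (pow_ne_zero 2 hz) h3
  rw [div_eq_iff hDz] at h5
  exact h5

/-- `N (℘ z) = ℘ (t z) D (℘ z)` -/
theorem mulx_all (z : ℂ) (hz : z ∉ L.lattice) (hz' : t * z ∉ L.lattice) :
    N.eval (L.weierstrassP z) = L.weierstrassP (t * z) * D.eval (L.weierstrassP z) := by
  let S : Set ℂ := (L.lattice : Set ℂ) ∪ (fun x => t⁻¹ * x) '' (L.lattice : Set ℂ)
  have hScount : S.Countable := by
    have h1 : (L.lattice : Set ℂ).Countable := by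
      have h2 : Countable L.lattice := L.latticeEquivProd.toEquiv.countable_iff.mpr inferInstance
      exact h2.to_set
    exact h1.union (h1.image _)
  have hmem : ∀ w : ℂ, w ∈ Sᶜ ↔ w ∉ L.lattice ∧ t * w ∉ L.lattice := by
    intro w
    rw [Set.mem_compl_iff, Set.mem_union, not_or]
    refine and_congr_right fun _ => not_congr ?_
    constructor
    · rintro ⟨x, hx, rfl⟩
      rw [← mul_assoc, mul_inv_cancel₀ ht, one_mul]
      exact hx
    · intro h
      exact ⟨t * w, h, inv_mul_cancel_left₀ ht w⟩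
  have hconn : IsPreconnected Sᶜ :=
    (hScount.isConnected_compl_of_one_lt_rank (by
      rw [Complex.rank_real_complex]
      exact Nat.one_lt_ofNat)).isPreconnected
  have han : AnalyticOnNhd ℂ (fun w => N.eval (L.weierstrassP w) -
      L.weierstrassP (t * w) * D.eval (L.weierstrassP w)) Sᶜ := by
    intro w hw
    rw [hmem] at hw
    have h1 := L.analyticOnNhd_weierstrassP w hw.1
    have h2 : AnalyticAt ℂ (fun w => L.weierstrassP (t * w)) w :=
      (L.analyticOnNhd_weierstrassP (t * w) hw.2).fun_comp (analyticAt_const.mul analyticAt_id)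
    have h3 : ∀ P : Polynomial ℂ, AnalyticAt ℂ (fun w => P.eval (L.weierstrassP w)) w := by
      intro P
      have h4 := h1.aeval_polynomial P
      simpa [Polynomial.coe_aeval_eq_eval] using h4
    exact (h3 N).sub (h2.mul (h3 D))
  -- a point near `0`
  have hev : ∀ᶠ w in 𝓝[≠] (0 : ℂ), ∀ᶠ y in 𝓝 w, N.eval (L.weierstrassP y) -
      L.weierstrassP (t * y) * D.eval (L.weierstrassP y) = 0 := by
    have h1 := near_zero ht hg2 hg3 hN hD hdeg hid
    rw [eventually_nhdsWithin_iff] at h1 ⊢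
    filter_upwards [h1.eventually_nhds] with w hw hw0
    filter_upwards [hw, eventually_ne_nhds hw0] with y hy hy0
    rw [(hy hy0).2, sub_self]
  obtain ⟨w, hw1, hw2, hw3⟩ := (hev.and ((eventually_notMem L).and
    ((tendsto_mul ht).eventually (eventually_notMem L)))).exists
  have h1 := han.eqOn_zero_of_preconnected_of_eventuallyEq_zero hconn
    ((hmem w).mpr ⟨hw2, hw3⟩) hw1
  exact sub_eq_zero.mp (h1 ((hmem z).mpr ⟨hz, hz'⟩))

/-- The lattice is stable under the multiplication by `t`. -/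
theorem stable (l : ℂ) (hl : l ∈ L.lattice) : t * l ∈ L.lattice := by
  have ht2 : t ^ 2 ≠ 0 := pow_ne_zero 2 ht
  by_contra hcon
  have h1 := near_zero ht hg2 hg3 hN hD hdeg hid
  have hopen : IsOpen (L.lattice : Set ℂ)ᶜ := L.isClosed_lattice.isOpen_compl
  have hnear : ∀ᶠ z in 𝓝 (0 : ℂ), t * (l + z) ∉ L.lattice := by
    have h2 : ContinuousAt (fun z : ℂ => t * (l + z)) 0 := by fun_prop
    have h3 : (L.lattice : Set ℂ)ᶜ ∈ 𝓝 (t * (l + 0)) := by
      rw [add_zero]
      exact hopen.mem_nhds hcon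
    exact h2.eventually h3
  have hP : ∀ z : ℂ, L.weierstrassP (l + z) = L.weierstrassP z := by
    intro z
    rw [add_comm]
    exact L.weierstrassP_add_coe z ⟨l, hl⟩
  have heq : ∀ᶠ z in 𝓝[≠] (0 : ℂ), z ^ 2 * L.weierstrassP (t * (l + z)) =
      (t ^ 2)⁻¹ * Qf L (t * z) := by
    filter_upwards [h1, eventually_notMem L, mem_nhdsWithin_of_mem_nhds hnear,
      self_mem_nhdsWithin] with z h2 h3 h4 h5
    have hz : z ≠ 0 := h5
    have h6 : l + z ∉ L.lattice := by
      intro h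
      apply h3
      have h7 := L.lattice.sub_mem h hl
      rwa [add_sub_cancel_left] at h7
    have h7 := mulx_all ht hg2 hg3 hN hD hdeg hid (l + z) h6 h4
    rw [hP, h2.2] at h7
    have h8 := mul_right_cancel₀ h2.1 h7
    rw [← h8, Qf_eq L (mul_ne_zero ht hz)]
    have h9 : (t ^ 2)⁻¹ * t ^ 2 = 1 := inv_mul_cancel₀ ht2
    linear_combination (-(z ^ 2 * L.weierstrassP (t * z))) * h9
  have hc1 : Tendsto (fun z : ℂ => z ^ 2 * L.weierstrassP (t * (l + z))) (𝓝[≠] 0) (𝓝 0) := by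
    have h2 : ContinuousAt (fun z : ℂ => z ^ 2 * L.weierstrassP (t * (l + z))) 0 := by
      have h3 : ContinuousAt L.weierstrassP (t * (l + 0)) := by
        rw [add_zero]
        exact (L.analyticOnNhd_weierstrassP (t * l) hcon).continuousAt
      have h4 : ContinuousAt (fun z : ℂ => L.weierstrassP (t * (l + z))) 0 :=
        ContinuousAt.comp' h3 (by fun_prop)
      fun_prop
    have h5 := h2.tendsto
    rw [zero_pow two_ne_zero, zero_mul] at h5
    exact h5.mono_left nhdsWithin_le_nhds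
  have hc2 : Tendsto (fun z : ℂ => (t ^ 2)⁻¹ * Qf L (t * z)) (𝓝[≠] 0) (𝓝 ((t ^ 2)⁻¹)) := by
    have h2 : ContinuousAt (fun z : ℂ => (t ^ 2)⁻¹ * Qf L (t * z)) 0 := by
      have h3 : ContinuousAt (Qf L) (t * 0) := by
        rw [mul_zero]
        exact (Qf_analytic L).continuousAt
      have h4 : ContinuousAt (fun z : ℂ => Qf L (t * z)) 0 :=
        ContinuousAt.comp' h3 (by fun_prop)
      fun_prop
    have h5 := h2.tendsto
    rw [mul_zero, Qf_zero, mul_one] at h5
    exact h5.mono_left nhdsWithin_le_nhds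
  have h2 := tendsto_nhds_unique_of_eventuallyEq hc1 hc2 heq
  exact inv_ne_zero ht2 h2.symm

end main

end

end Pool.Agent.Lib.MP_1a91b9_nuX.UF
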