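import Mathlib

/-!
# Uniformisation: every `(a, b)` with `a ^ 3 ≠ 27 b ^ 2` is `(g₂, g₃)` of a lattice

For `τ` in the upper half plane and `μ ≠ 0` the lattice `μ (ℤ τ + ℤ)` has
`g₂ = μ ^ (-4) (4 π ^ 4 / 3) E₄ τ` and `g₃ = μ ^ (-6) (8 π ^ 6 / 27) E₆ τ`. The form
`27 b ^ 2 E₄ ^ 3 - a ^ 3 E₆ ^ 2` of weight 12 and level one does not vanish at the cusp. If it had
no zero in the upper half plane, its inverse would be a modular form of weight `-12`.
-/

set_option autoImplicit false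

namespace Pool.Agent.Lib.MP_1a91b9_nuX.UF

open UpperHalfPlane ModularForm EisensteinSeries MatrixGroups
open scoped Real

noncomputable section

/-- the lattice `μ (ℤ τ + ℤ)` -/
def lt (μ : ℂ) (hμ : μ ≠ 0) (τ : ℍ) : PeriodPair where
  ω₁ := μ * τ
  ω₂ := μ
  indep := by
    rw [LinearIndependent.pair_iff]
    intro s r e
    have e1 : μ * ((s : ℂ) * τ + r) = 0 := by
      rw [← e, Complex.real_smul, Complex.real_smul]
      ring
    have e2 : (s : ℂ) * τ + r = 0 := (mul_eq_zero.mp e1).resolve_left hμ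
    have him := congrArg Complex.im e2
    have hre := congrArg Complex.re e2
    simp at him hre
    have hs : s = 0 := him.resolve_right (ne_of_gt τ.im_pos)
    subst hs
    simpa using hre

theorem lt_G (μ : ℂ) (hμ : μ ≠ 0) (τ : ℍ) {k : ℕ} (hk : 3 ≤ k) :
    (lt μ hμ τ).G k = (μ ^ k)⁻¹ * (2 * riemannZeta k * E hk τ) := by
  have h1 : (lt μ hμ τ).G k = ∑' x : ℤ × ℤ, (μ ^ k)⁻¹ * eisSummand k ![x.1, x.2] τ := by
    unfold PeriodPair.G
    rw [← (lt μ hμ τ).latticeEquivProd.symm.toEquiv.tsum_eq]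
    refine tsum_congr fun x => ?_
    have h2 : (((lt μ hμ τ).latticeEquivProd.symm.toEquiv x : (lt μ hμ τ).lattice) : ℂ) =
        μ * (x.1 * τ + x.2) := by
      have h3 := (lt μ hμ τ).latticeEquiv_symm_apply x
      change (((lt μ hμ τ).latticeEquivProd.symm x : (lt μ hμ τ).lattice) : ℂ) = _
      rw [h3]
      change (x.1 : ℂ) * (μ * τ) + x.2 * μ = _
      ring
    rw [h2, mul_pow, mul_inv, eisSummand]
    simp
  have h2 : ∑' x : ℤ × ℤ, eisSummand k ![x.1, x.2] τ = ∑' v : Fin 2 → ℤ, eisSummand k v τ := by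
    rw [← (finTwoArrowEquiv ℤ).symm.tsum_eq]
    rfl
  rw [h1, tsum_mul_left, h2, tsum_eisSummand_eq_riemannZeta_mul_eisensteinSeries hk]
  have h3 : E hk τ = (1 / 2 : ℂ) * eisensteinSeries (N := 1) 0 k τ := rfl
  rw [h3]
  ring

theorem lt_g2 (μ : ℂ) (hμ : μ ≠ 0) (τ : ℍ) :
    (lt μ hμ τ).g₂ = (μ ^ 4)⁻¹ * (4 * (π : ℂ) ^ 4 / 3 * E₄ τ) := by
  unfold PeriodPair.g₂
  rw [lt_G μ hμ τ (by norm_num : 3 ≤ 4)]
  have h1 : riemannZeta ((4 : ℕ) : ℂ) = (π : ℂ) ^ 4 / 90 := by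
    rw [Nat.cast_ofNat, riemannZeta_four]
  rw [h1]
  ring

theorem zeta_six : riemannZeta ((6 : ℕ) : ℂ) = (π : ℂ) ^ 6 / 945 := by
  have h1 := riemannZeta_two_mul_nat (k := 3) (by norm_num)
  have h2 : ((6 : ℕ) : ℂ) = 2 * ((3 : ℕ) : ℂ) := by norm_num
  rw [h2, h1]
  have h3 : bernoulli (2 * 3) = 1 / 42 := by
    decide +kernel
  rw [h3]
  norm_num [Nat.factorial]
  ring

theorem lt_g3 (μ : ℂ) (hμ : μ ≠ 0) (τ : ℍ) :
    (lt μ hμ τ).g₃ = (μ ^ 6)⁻¹ * (8 * (π : ℂ) ^ 6 / 27 * E₆ τ) := by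
  unfold PeriodPair.g₃
  rw [lt_G μ hμ τ (by norm_num : 3 ≤ 6), zeta_six]
  ring

/-- A form of weight 12 and level one which does not vanish at the cusp has a zero. -/
theorem exists_zero (F : ModularForm 𝒮ℒ 12) (hF : (qExpansion 1 F).coeff 0 ≠ 0) :
    ∃ z : ℍ, F z = 0 := by
  by_contra hcon
  push Not at hcon
  have hval : valueAtInfty F ≠ 0 := by
    rwa [qExpansion_coeff_zero one_pos
      (ModularFormClass.analyticAt_cuspFunction_zero F one_pos one_mem_strictPeriods_SL)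
      (SlashInvariantFormClass.periodic_comp_ofComplex F one_mem_strictPeriods_SL)] at hF
  obtain ⟨c, hc, hdec⟩ := ModularFormClass.exp_decay_sub_atImInfty' F
  have ht0 : Filter.Tendsto (fun τ : ℍ => Real.exp (-c * τ.im)) atImInfty (nhds 0) := by
    refine Real.tendsto_exp_atBot.comp ?_
    refine Filter.Tendsto.const_mul_atTop_of_neg (neg_lt_zero.mpr hc) ?_
    exact Filter.tendsto_comap
  have ht1 : Filter.Tendsto (fun τ : ℍ => F τ - valueAtInfty F) atImInfty (nhds 0) :=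
    hdec.trans_tendsto ht0
  have ht2 : Filter.Tendsto (fun τ : ℍ => F τ) atImInfty (nhds (valueAtInfty F)) := by
    have h1 := ht1.add_const (valueAtInfty F)
    simpa using h1
  have ht3 : Filter.Tendsto (fun τ : ℍ => (1 : ℂ) / F τ) atImInfty
      (nhds (1 / valueAtInfty F)) := tendsto_const_nhds.div ht2 hval
  have hslash : ∀ γ : SL(2, ℤ), (fun z => (1 : ℂ) / F z) ∣[(-12 : ℤ)] γ = fun z => 1 / F z := by
    intro γ
    have hγ : (γ : GL (Fin 2) ℝ) ∈ 𝒮ℒ := ⟨γ, rfl⟩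
    have h1 := div_slash_SL2 0 12 γ (1 : ℍ → ℂ) (F : ℍ → ℂ)
    rw [show ((0 : ℤ) - 12) = -12 by norm_num, ModularForm.is_invariant_one] at h1
    have h2 : (F : ℍ → ℂ) ∣[(12 : ℤ)] γ = F := by
      rw [SL_slash]
      exact SlashInvariantFormClass.slash_action_eq F _ hγ
    rw [h2] at h1
    exact h1
  let g : ModularForm 𝒮ℒ (-12) :=
    { toFun := fun z => 1 / F z
      slash_action_eq' := by
        rintro _ ⟨γ, rfl⟩
        exact hslash γ
      holo' := by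
        have h1 : MDifferentiable (modelWithCornersSelf ℂ ℂ) (modelWithCornersSelf ℂ ℂ)
            (fun _ : ℍ => (1 : ℂ)) := mdifferentiable_const
        exact h1.div F.holo' hcon
      bdd_at_cusps' := by
        intro c hc
        rw [Subgroup.IsArithmetic.isCusp_iff_isCusp_SL2Z] at hc
        rw [OnePoint.isBoundedAt_iff_forall_SL2Z hc]
        intro γ _
        rw [hslash γ]
        exact ht3.isBigO_one ℝ }
  have h := ModularFormClass.levelOne_neg_weight_eq_zero (k := -12) (by norm_num) g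
  have h1 := congrFun h UpperHalfPlane.I
  have h2 : (1 : ℂ) / F UpperHalfPlane.I = 0 := h1
  rw [div_eq_zero_iff] at h2
  rcases h2 with h2 | h2
  · exact one_ne_zero h2
  · exact hcon _ h2

/-- The form `α E₄ ^ 3 + β E₆ ^ 2` has a zero if `α + β ≠ 0`. -/
theorem exists_zero_comb (α β : ℂ) (h : α + β ≠ 0) :
    ∃ z : ℍ, α * E₄ z ^ 3 + β * E₆ z ^ 2 = 0 := by
  let F4 : ModularForm 𝒮ℒ 12 := ModularForm.mcast (by decide) (E₄.pow 3)
  let F6 : ModularForm 𝒮ℒ 12 := ModularForm.mcast (by decide) (E₆.pow 2)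
  have hF4 : qExpansion 1 F4 = qExpansion 1 E₄ ^ 3 :=
    ModularForm.qExpansion_pow one_pos one_mem_strictPeriods_SL E₄ 3
  have hF6 : qExpansion 1 F6 = qExpansion 1 E₆ ^ 2 :=
    ModularForm.qExpansion_pow one_pos one_mem_strictPeriods_SL E₆ 2
  have hF : (qExpansion 1 (α • F4 + β • F6 : ModularForm 𝒮ℒ 12)).coeff 0 ≠ 0 := by
    have h1 : qExpansion 1 (α • F4 + β • F6 : ModularForm 𝒮ℒ 12) =
        α • qExpansion 1 F4 + β • qExpansion 1 F6 := by
      have h2 := ModularForm.qExpansion_add (h := 1) one_pos one_mem_strictPeriods_SL (α • F4)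
        (β • F6)
      have h3 := ModularForm.qExpansion_smul (h := 1) one_pos one_mem_strictPeriods_SL α F4
      have h4 := ModularForm.qExpansion_smul (h := 1) one_pos one_mem_strictPeriods_SL β F6
      rw [← h3, ← h4]
      exact h2
    rw [h1, hF4, hF6, map_add, PowerSeries.coeff_smul, PowerSeries.coeff_smul,
      PowerSeries.coeff_zero_eq_constantCoeff_apply, PowerSeries.coeff_zero_eq_constantCoeff_apply,
      map_pow, map_pow, ← PowerSeries.coeff_zero_eq_constantCoeff_apply,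
      ← PowerSeries.coeff_zero_eq_constantCoeff_apply, E_qExpansion_coeff_zero _ ⟨2, rfl⟩,
      E_qExpansion_coeff_zero _ ⟨3, rfl⟩]
    simpa using h
  obtain ⟨z, hz⟩ := exists_zero _ hF
  refine ⟨z, ?_⟩
  have h1 : F4 z = E₄ z ^ 3 := by
    change (E₄.pow 3) z = _
    rw [coe_pow]
    rfl
  have h2 : F6 z = E₆ z ^ 2 := by
    change (E₆.pow 2) z = _
    rw [coe_pow]
    rfl
  rw [← h1, ← h2]
  exact hz

theorem E_ne (z : ℍ) : E₄ z ^ 3 - E₆ z ^ 2 ≠ 0 := by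
  intro h
  have h1 := discriminant_eq_E₄_cube_sub_E₆_sq z
  rw [h, zero_div] at h1
  exact discriminant_ne_zero z h1

/-- **Uniformisation.** -/
theorem exists_lattice (a b : ℂ) (h : a ^ 3 - 27 * b ^ 2 ≠ 0) :
    ∃ L : PeriodPair, L.g₂ = a ∧ L.g₃ = b := by
  have hπ : (π : ℂ) ≠ 0 := by exact_mod_cast Real.pi_ne_zero
  obtain ⟨c4, hc4⟩ : ∃ c4 : ℂ, c4 = 4 * (π : ℂ) ^ 4 / 3 := ⟨_, rfl⟩
  obtain ⟨c6, hc6⟩ : ∃ c6 : ℂ, c6 = 8 * (π : ℂ) ^ 6 / 27 := ⟨_, rfl⟩
  have hc6' : c6 ≠ 0 := by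
    rw [hc6]
    exact div_ne_zero (mul_ne_zero (by norm_num) (pow_ne_zero 6 hπ)) (by norm_num)
  have hcc : c4 ^ 3 = 27 * c6 ^ 2 := by
    rw [hc4, hc6]
    ring
  obtain ⟨z, hz⟩ := exists_zero_comb (b ^ 2 * c4 ^ 3) (-(a ^ 3 * c6 ^ 2)) (by
    rw [hcc]
    intro h0
    have h1 : (a ^ 3 - 27 * b ^ 2) * c6 ^ 2 = 0 := by linear_combination -h0
    rcases mul_eq_zero.mp h1 with h2 | h2
    · exact h h2
    · exact pow_ne_zero 2 hc6' h2)
  have hne := E_ne z
  obtain ⟨A, hA⟩ : ∃ A : ℂ, A = c4 * E₄ z := ⟨_, rfl⟩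
  obtain ⟨B, hB⟩ : ∃ B : ℂ, B = c6 * E₆ z := ⟨_, rfl⟩
  have hAB : b ^ 2 * A ^ 3 = a ^ 3 * B ^ 2 := by
    rw [hA, hB]
    linear_combination hz
  have hAB0 : A ^ 3 - 27 * B ^ 2 ≠ 0 := by
    have h1 : A ^ 3 - 27 * B ^ 2 = 27 * c6 ^ 2 * (E₄ z ^ 3 - E₆ z ^ 2) := by
      rw [hA, hB]
      linear_combination (E₄ z ^ 3) * hcc
    rw [h1]
    exact mul_ne_zero (mul_ne_zero (by norm_num) (pow_ne_zero 2 hc6')) hne
  -- the scaling factor
  have key : ∃ ν : ℂ, ν ≠ 0 ∧ ν ^ 4 * A = a ∧ ν ^ 6 * B = b := by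
    by_cases ha : a = 0
    · subst ha
      have hb : b ≠ 0 := by
        rintro rfl
        exact h (by ring)
      have hA0 : A = 0 := by
        have h1 : b ^ 2 * A ^ 3 = 0 := by rw [hAB]; ring
        rcases mul_eq_zero.mp h1 with h2 | h2
        · exact absurd (pow_eq_zero_iff (two_ne_zero) |>.mp h2) hb
        · exact pow_eq_zero_iff (three_ne_zero) |>.mp h2
      have hB0 : B ≠ 0 := by
        rintro rfl
        exact hAB0 (by rw [hA0]; ring)
      obtain ⟨ν, hν⟩ := IsAlgClosed.exists_pow_nat_eq (b / B) (n := 6) (by norm_num)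
      refine ⟨ν, ?_, ?_, ?_⟩
      · rintro rfl
        rw [zero_pow (by norm_num)] at hν
        exact div_ne_zero hb hB0 hν.symm
      · rw [hA0, mul_zero]
      · rw [hν, div_mul_cancel₀ _ hB0]
    · have hA0 : A ≠ 0 := by
        rintro rfl
        have h1 : a ^ 3 * B ^ 2 = 0 := by rw [← hAB]; ring
        rcases mul_eq_zero.mp h1 with h2 | h2
        · exact ha (pow_eq_zero_iff (three_ne_zero) |>.mp h2)
        · apply hAB0
          rw [h2]
          ring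
      obtain ⟨w0, hw0⟩ := IsAlgClosed.exists_pow_nat_eq (a / A) (n := 2) (by norm_num)
      have hw : ∃ w : ℂ, w ^ 2 = a / A ∧ w ^ 3 * B = b := by
        have h1 : (w0 ^ 3 * B) ^ 2 = b ^ 2 := by
          have h2 : (w0 ^ 3 * B) ^ 2 = (w0 ^ 2) ^ 3 * B ^ 2 := by ring
          rw [h2, hw0, div_pow, div_mul_eq_mul_div, ← hAB, mul_div_assoc,
            div_self (pow_ne_zero 3 hA0), mul_one]
        rcases sq_eq_sq_iff_eq_or_eq_neg.mp h1 with h2 | h2
        · exact ⟨w0, hw0, h2⟩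
        · refine ⟨-w0, by rw [neg_sq, hw0], ?_⟩
          linear_combination -h2
      obtain ⟨w, hw1, hw2⟩ := hw
      obtain ⟨ν, hν⟩ := IsAlgClosed.exists_pow_nat_eq w (n := 2) (by norm_num)
      have h4 : ν ^ 4 = a / A := by
        rw [← hw1, ← hν]
        ring
      refine ⟨ν, ?_, ?_, ?_⟩
      · rintro rfl
        rw [zero_pow (by norm_num)] at h4
        exact div_ne_zero ha hA0 h4.symm
      · rw [h4, div_mul_cancel₀ _ hA0]
      · rw [← hw2, ← hν]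
        ring
  obtain ⟨ν, hν, h4, h6⟩ := key
  refine ⟨lt ν⁻¹ (inv_ne_zero hν) z, ?_, ?_⟩
  · rw [lt_g2, inv_pow, inv_inv, ← hc4, ← hA, h4]
  · rw [lt_g3, inv_pow, inv_inv, ← hc6, ← hB, h6]

end

end Pool.Agent.Lib.MP_1a91b9_nuX.UF
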