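import Pool.Agent.Lib.MP_1a91b9_nuX.UF.Ode

/-!
# Checking the differential equation at integers

`t ^ 2 = tr t - nm`. The pair `(a, b)` of integers is `a + t b`; a list of integers is a polynomial
(constant term first); a pair of lists `(l, m)` is the polynomial `l + t m`. The function `chk`
verifies the differential equation of `UF/Ode` at the integers `a, a + 1, …, a + k - 1`.
Both sides have degree less than `4 n`, `n = deg N`, so that the verification at
`0, 1, …, 4 n - 1` proves the identity.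
-/

set_option autoImplicit false

namespace Pool.Agent.Lib.MP_1a91b9_nuX.UF

open Polynomial

/-- the value of a polynomial -/
def evZ : List ℤ → ℤ → ℤ
  | [], _ => 0
  | c :: l, x => c + x * evZ l x

/-- auxiliary function for the derivative -/
def derAux : ℤ → List ℤ → List ℤ
  | _, [] => []
  | k, x :: l => (k * x) :: derAux (k + 1) l

/-- the derivative -/
def derL : List ℤ → List ℤ
  | [] => []
  | _ :: l => derAux 1 l

/-- multiplication in `ℤ[t]` -/
def cMul (tr nm : ℤ) (x y : ℤ × ℤ) : ℤ × ℤ :=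
  (x.1 * y.1 - nm * (x.2 * y.2), x.1 * y.2 + x.2 * y.1 + tr * (x.2 * y.2))

/-- the equation for the values `n, n', d, d'` of `N, N', D, D'` at `x` -/
def eqn (tr nm A B x : ℤ) (n n' d d' : ℤ × ℤ) : Bool :=
  let u := cMul tr nm n' d
  let v := cMul tr nm n d'
  let w : ℤ × ℤ := (u.1 - v.1, u.2 - v.2)
  let w2 := cMul tr nm w w
  let c := x ^ 3 + A * x + B
  let d2 := cMul tr nm d d
  let d3 := cMul tr nm d2 d
  let nd2 := cMul tr nm n d2
  let n3 := cMul tr nm n (cMul tr nm n n)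
  let s : ℤ × ℤ := (n3.1 + A * nd2.1 + B * d3.1, n3.2 + A * nd2.2 + B * d3.2)
  decide ((c * w2.1, c * w2.2) = cMul tr nm (cMul tr nm (-nm, tr) d) s)

/-- the equation at the integer `x` -/
def eqnAt (tr nm A B : ℤ) (N₀ N₁ D₀ D₁ : List ℤ) (x : ℤ) : Bool :=
  eqn tr nm A B x (evZ N₀ x, evZ N₁ x) (evZ (derL N₀) x, evZ (derL N₁) x)
    (evZ D₀ x, evZ D₁ x) (evZ (derL D₀) x, evZ (derL D₁) x)

/-- the check at `a, a + 1, …, a + k - 1` -/
def chk (tr nm A B : ℤ) (N₀ N₁ D₀ D₁ : List ℤ) (a k : ℕ) : Bool :=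
  (List.range k).all fun i => eqnAt tr nm A B N₀ N₁ D₀ D₁ ((a + i : ℕ) : ℤ)

theorem chk_mem {tr nm A B : ℤ} {N₀ N₁ D₀ D₁ : List ℤ} {a k : ℕ}
    (h : chk tr nm A B N₀ N₁ D₀ D₁ a k = true) (j : ℕ) (h1 : a ≤ j) (h2 : j < a + k) :
    eqnAt tr nm A B N₀ N₁ D₀ D₁ ((j : ℕ) : ℤ) = true := by
  unfold chk at h
  rw [List.all_eq_true] at h
  have h3 := h (j - a) (List.mem_range.mpr (by omega))
  rw [show a + (j - a) = j by omega] at h3
  exact h3

noncomputable section

/-- the polynomial of a list -/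
def toZ : List ℤ → ℤ[X]
  | [] => 0
  | c :: l => C c + X * toZ l

theorem toZ_eval (l : List ℤ) (x : ℤ) : (toZ l).eval x = evZ l x := by
  induction l with
  | nil =>
    change (0 : ℤ[X]).eval x = 0
    exact eval_zero
  | cons c l ih =>
    change (C c + X * toZ l).eval x = c + x * evZ l x
    rw [eval_add, eval_C, eval_mul, eval_X, ih]

theorem toZ_derAux (k : ℤ) (l : List ℤ) :
    toZ (derAux k l) = C k * toZ l + X * derivative (toZ l) := by
  induction l generalizing k with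
  | nil =>
    change (0 : ℤ[X]) = C k * 0 + X * derivative 0
    simp
  | cons c l ih =>
    change C (k * c) + X * toZ (derAux (k + 1) l) =
      C k * (C c + X * toZ l) + X * derivative (C c + X * toZ l)
    rw [ih, derivative_add, derivative_C, derivative_mul, derivative_X, C_mul, C_add, C_1]
    ring

theorem toZ_der (l : List ℤ) : derivative (toZ l) = toZ (derL l) := by
  cases l with
  | nil =>
    change derivative (0 : ℤ[X]) = 0
    exact derivative_zero
  | cons c l =>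
    change derivative (C c + X * toZ l) = toZ (derAux 1 l)
    rw [toZ_derAux, derivative_add, derivative_C, derivative_mul, derivative_X, C_1]
    ring

theorem toZ_coeff (l : List ℤ) (i : ℕ) : (toZ l).coeff i = l.getD i 0 := by
  induction l generalizing i with
  | nil =>
    change (0 : ℤ[X]).coeff i = _
    simp
  | cons c l ih =>
    change (C c + X * toZ l).coeff i = _
    cases i with
    | zero => simp
    | succ i =>
      rw [coeff_add, coeff_C_succ, zero_add, coeff_X_mul, ih, List.getD_cons_succ]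

/-- the complex polynomial of a pair of lists -/
def PC (t : ℂ) (l m : List ℤ) : ℂ[X] :=
  (toZ l).map (Int.castRingHom ℂ) + C t * (toZ m).map (Int.castRingHom ℂ)

theorem PC_coeff (t : ℂ) (l m : List ℤ) (i : ℕ) :
    (PC t l m).coeff i = (l.getD i 0 : ℤ) + t * (m.getD i 0 : ℤ) := by
  unfold PC
  rw [coeff_add, coeff_C_mul, coeff_map, coeff_map, toZ_coeff, toZ_coeff]
  rfl

theorem PC_natDegree_le (t : ℂ) (l m : List ℤ) {k : ℕ} (hl : l.length = k + 1)
    (hm : m.length = k + 1) : (PC t l m).natDegree ≤ k := by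
  rw [natDegree_le_iff_coeff_eq_zero]
  intro i hi
  rw [PC_coeff, List.getD_eq_default _ _ (by omega), List.getD_eq_default _ _ (by omega)]
  simp

theorem PC_der (t : ℂ) (l m : List ℤ) : derivative (PC t l m) = PC t (derL l) (derL m) := by
  unfold PC
  rw [derivative_add, derivative_C_mul, derivative_map, derivative_map, toZ_der, toZ_der]

/-- the complex number of a pair -/
def cv (t : ℂ) (x : ℤ × ℤ) : ℂ := x.1 + t * x.2

theorem PC_eval (t : ℂ) (l m : List ℤ) (x : ℤ) :
    (PC t l m).eval (x : ℂ) = cv t (evZ l x, evZ m x) := by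
  unfold PC cv
  rw [eval_add, eval_mul, eval_C]
  have h : ∀ l : List ℤ, ((toZ l).map (Int.castRingHom ℂ)).eval (x : ℂ) = (evZ l x : ℂ) := by
    intro l
    rw [← toZ_eval]
    exact eval_intCast_map (Int.castRingHom ℂ) (toZ l) x
  rw [h, h]

variable {t : ℂ} {tr nm : ℤ} (ht : t ^ 2 = tr * t - nm)

include ht

theorem cv_mul (x y : ℤ × ℤ) : cv t (cMul tr nm x y) = cv t x * cv t y := by
  unfold cv cMul
  push_cast
  linear_combination (-(x.2 : ℂ) * y.2) * ht

theorem eqn_cv {A B x : ℤ} {n n' d d' : ℤ × ℤ} (h : eqn tr nm A B x n n' d d' = true) :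
    ((x : ℂ) ^ 3 + A * x + B) * (cv t n' * cv t d - cv t n * cv t d') ^ 2 =
      t ^ 2 * cv t d * (cv t n ^ 3 + A * cv t n * cv t d ^ 2 + B * cv t d ^ 3) := by
  unfold eqn at h
  have h1 := of_decide_eq_true h
  have h2 := congrArg (cv t) h1
  have e1 : ∀ (c : ℤ) (w : ℤ × ℤ), cv t (c * w.1, c * w.2) = c * cv t w := by
    intro c w
    unfold cv
    push_cast
    ring
  have e2 : ∀ (u v : ℤ × ℤ), cv t (u.1 - v.1, u.2 - v.2) = cv t u - cv t v := by
    intro u v
    unfold cv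
    push_cast
    ring
  have e3 : ∀ (u v w : ℤ × ℤ), cv t (u.1 + A * v.1 + B * w.1, u.2 + A * v.2 + B * w.2) =
      cv t u + A * cv t v + B * cv t w := by
    intro u v w
    unfold cv
    push_cast
    ring
  have e4 : cv t (-nm, tr) = t ^ 2 := by
    unfold cv
    push_cast
    linear_combination -ht
  rw [e1] at h2
  simp only [cv_mul ht, e2, e3, e4] at h2
  push_cast at h2
  linear_combination h2

/-- **The identity from the check.** -/
theorem data_ok {A B : ℤ} {N₀ N₁ D₀ D₁ : List ℤ} {m : ℕ} (hm : 1 ≤ m) (ht0 : t ≠ 0)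
    (hN0 : N₀.length = m + 2) (hN1 : N₁.length = m + 2) (hD0 : D₀.length = m + 1)
    (hD1 : D₁.length = m + 1) (hN0l : N₀.getD (m + 1) 0 = 1) (hN1l : N₁.getD (m + 1) 0 = 0)
    (hD0l : D₀.getD m 0 = -nm) (hD1l : D₁.getD m 0 = tr)
    (hall : ∀ j : ℕ, j < 4 * (m + 1) → eqnAt tr nm A B N₀ N₁ D₀ D₁ ((j : ℕ) : ℤ) = true) :
    (PC t N₀ N₁).Monic ∧ (PC t D₀ D₁).leadingCoeff = t ^ 2 ∧
    (PC t N₀ N₁).natDegree = (PC t D₀ D₁).natDegree + 1 ∧
    (X ^ 3 + C (A : ℂ) * X + C (B : ℂ)) *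
    (derivative (PC t N₀ N₁) * PC t D₀ D₁ - PC t N₀ N₁ * derivative (PC t D₀ D₁)) ^ 2 =
    C (t ^ 2) * PC t D₀ D₁ * (PC t N₀ N₁ ^ 3 + C (A : ℂ) * PC t N₀ N₁ * PC t D₀ D₁ ^ 2 +
      C (B : ℂ) * PC t D₀ D₁ ^ 3) := by
  have ht2 : t ^ 2 ≠ 0 := pow_ne_zero 2 ht0
  have hNle : (PC t N₀ N₁).natDegree ≤ m + 1 := PC_natDegree_le t N₀ N₁ hN0 hN1
  have hDle : (PC t D₀ D₁).natDegree ≤ m := PC_natDegree_le t D₀ D₁ hD0 hD1
  have hNc : (PC t N₀ N₁).coeff (m + 1) = 1 := by
    rw [PC_coeff, hN0l, hN1l]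
    simp
  have hDc : (PC t D₀ D₁).coeff m = t ^ 2 := by
    rw [PC_coeff, hD0l, hD1l, ht]
    push_cast
    ring
  have hNd : (PC t N₀ N₁).natDegree = m + 1 :=
    natDegree_eq_of_le_of_coeff_ne_zero hNle (by rw [hNc]; exact one_ne_zero)
  have hDd : (PC t D₀ D₁).natDegree = m :=
    natDegree_eq_of_le_of_coeff_ne_zero hDle (by rw [hDc]; exact ht2)
  refine ⟨?_, ?_, by rw [hNd, hDd], ?_⟩
  · rw [Monic, leadingCoeff, hNd, hNc]
  · rw [leadingCoeff, hDd, hDc]
  · obtain ⟨N, hN⟩ : ∃ N, N = PC t N₀ N₁ := ⟨_, rfl⟩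
    obtain ⟨D, hD⟩ : ∃ D, D = PC t D₀ D₁ := ⟨_, rfl⟩
    rw [← hN, ← hD]
    rw [← hN] at hNle
    rw [← hD] at hDle
    have hN'le : (derivative N).natDegree ≤ m := by
      have h1 := natDegree_derivative_le N
      omega
    have hD'le : (derivative D).natDegree ≤ m - 1 := by
      have h1 := natDegree_derivative_le D
      omega
    have hcub : (X ^ 3 + C (A : ℂ) * X + C (B : ℂ)).natDegree ≤ 3 := by
      compute_degree
    have hw : (derivative N * D - N * derivative D).natDegree ≤ 2 * m := by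
      have h1 := natDegree_sub_le_of_le (natDegree_mul_le_of_le hN'le hDle)
        (natDegree_mul_le_of_le hNle hD'le)
      omega
    have hL : ((X ^ 3 + C (A : ℂ) * X + C (B : ℂ)) *
        (derivative N * D - N * derivative D) ^ 2).natDegree ≤ 4 * m + 3 := by
      have h1 := natDegree_mul_le_of_le hcub (natDegree_pow_le_of_le 2 hw)
      omega
    have hR : (C (t ^ 2) * D * (N ^ 3 + C (A : ℂ) * N * D ^ 2 + C (B : ℂ) * D ^ 3)).natDegree ≤
        4 * m + 3 := by
      have h1 : (C (t ^ 2) * D).natDegree ≤ m := (natDegree_C_mul_le _ _).trans hDle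
      have h2 : (N ^ 3).natDegree ≤ 3 * m + 3 := by
        have h3 := natDegree_pow_le_of_le 3 hNle
        omega
      have h4 : (C (A : ℂ) * N * D ^ 2).natDegree ≤ 3 * m + 3 := by
        have h5 : (C (A : ℂ) * N).natDegree ≤ m + 1 := (natDegree_C_mul_le _ _).trans hNle
        have h3 := natDegree_mul_le_of_le h5 (natDegree_pow_le_of_le 2 hDle)
        omega
      have h6 : (C (B : ℂ) * D ^ 3).natDegree ≤ 3 * m + 3 := by
        have h3 := (natDegree_C_mul_le (B : ℂ) (D ^ 3)).trans (natDegree_pow_le_of_le 3 hDle)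
        omega
      have h7 := natDegree_add_le_of_le (natDegree_add_le_of_le h2 h4) h6
      have h8 := natDegree_mul_le_of_le h1 h7
      omega
    rw [← sub_eq_zero]
    refine eq_zero_of_natDegree_lt_card_of_eval_eq_zero _
      (f := fun i : Fin (4 * (m + 1)) => ((i : ℕ) : ℂ)) ?_ ?_ ?_
    · intro i j hij
      exact Fin.ext (Nat.cast_injective hij)
    · intro i
      have h1 := eqn_cv ht (hall i i.2)
      have h2 : ((i : ℕ) : ℂ) = (((i : ℕ) : ℤ) : ℂ) := by push_cast; rfl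
      have eN : N.eval (((i : ℕ) : ℤ) : ℂ) = cv t (evZ N₀ ((i : ℕ) : ℤ), evZ N₁ ((i : ℕ) : ℤ)) := by
        rw [hN, PC_eval]
      have eD : D.eval (((i : ℕ) : ℤ) : ℂ) = cv t (evZ D₀ ((i : ℕ) : ℤ), evZ D₁ ((i : ℕ) : ℤ)) := by
        rw [hD, PC_eval]
      have eN' : (derivative N).eval (((i : ℕ) : ℤ) : ℂ) =
          cv t (evZ (derL N₀) ((i : ℕ) : ℤ), evZ (derL N₁) ((i : ℕ) : ℤ)) := by
        rw [hN, PC_der, PC_eval]
      have eD' : (derivative D).eval (((i : ℕ) : ℤ) : ℂ) =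
          cv t (evZ (derL D₀) ((i : ℕ) : ℤ), evZ (derL D₁) ((i : ℕ) : ℤ)) := by
        rw [hD, PC_der, PC_eval]
      rw [h2]
      simp only [eval_sub, eval_mul, eval_add, eval_pow, eval_C, eval_X, eN, eD, eN', eD']
      rw [h1, sub_self]
    · rw [Fintype.card_fin]
      have h1 := natDegree_sub_le_of_le hL hR
      omega

end

end Pool.Agent.Lib.MP_1a91b9_nuX.UF
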