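import Pool.Agent.Lib.MP_1a91b9_nuX.UF.Top
import Pool.Agent.Lib.MP_1a91b9_ntX.TG.Uni

/-!
# The explicit set of exceptional primes for `y² = x³ + 16` and `F₀ = K`
-/

set_option autoImplicit false

namespace Pool.Agent.Lib.MP_1a91b9_nuX.UF

open NumberField IsDedekindDomain Module WeierstrassCurve Pool.Agent.Lib.MP_1a91b9_nuT
open Pool.Agent.Lib.MP_1a91b9_nuX.TG (RamX Tw ConclR)

/-- the conclusions in the two copies of the library -/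
theorem concl_eq {ℓ : ℕ} [Fact ℓ.Prime] {N : Type} [Field N] [NumberField N]
    {W : WeierstrassCurve N} (h : MP_1a91b9_ntT.PL.Concl ℓ W) : MP_1a91b9_nuT.PL.Concl ℓ W := h

/-- the ramification condition -/
theorem ramX_sixteen {ℓ : ℕ} {F₀ L : Type} [Field F₀] [NumberField F₀] [Field L] [NumberField L]
    [Algebra F₀ L] (h : RamX ℓ 0 16 (6 * (4 * 0 ^ 3 + 27 * 16 ^ 2)) F₀ L) :
    MP_1a91b9_ntX.TG.RamX ℓ 16 F₀ L := by
  intro v w hvw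
  obtain ⟨h1, h2⟩ := h v w hvw
  refine ⟨h1, fun h3 => ?_⟩
  have hp := v.isPrime
  have h4 := h2 (fun h5 => h3 (hp.mem_of_pow_mem 4 ?_))
  · rw [Int.cast_zero] at h4
    exact h4
  · have e : (((6 * 16 : ℤ)) : 𝓞 F₀) ^ 4 =
        2 ^ 11 * (((6 * (4 * 0 ^ 3 + 27 * 16 ^ 2) : ℤ)) : 𝓞 F₀) := by
      push_cast
      norm_num
    rw [e]
    exact v.asIdeal.mul_mem_left _ h5

/-- The curve `y² = x³ + 16` over `F₀ = K`. -/
theorem towD_sixteen {K₀ F₀ : Type} [Field K₀] [NumberField K₀] [Field F₀] [NumberField F₀]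
    [Algebra K₀ F₀] (hK : finrank ℚ K₀ = 2) (hd : ∃ w : K₀, w ^ 2 = ((-3 : ℤ) : K₀))
    (hb : finrank K₀ F₀ = 1) {ℓ : ℕ} (hℓ : ℓ.Prime) (h3 : ℓ ≠ 3) :
    TowD ℓ 0 16 (-3) (6 * (4 * 0 ^ 3 + 27 * 16 ^ 2)) 1 F₀ := by
  obtain ⟨w, hw⟩ := hd
  have hw2 : ((w - 1) / 2) ^ 2 + (w - 1) / 2 + 1 = 0 := by
    push_cast at hw
    linear_combination hw / 4
  obtain ⟨e, he⟩ := MP_1a91b9_ntT3.S8.exists_equiv hK hw2
  let aF : Algebra MP_1a91b9_ntT.K F₀ := ((algebraMap K₀ F₀).comp e.toRingHom).toAlgebra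
  have hfin : finrank MP_1a91b9_ntT.K F₀ = 1 := by
    have h1 := finrank_mul_finrank ℚ MP_1a91b9_ntT.K F₀
    have h2 := finrank_mul_finrank ℚ K₀ F₀
    rw [MP_1a91b9_ntT.S3.finrank_K] at h1
    rw [hK, hb] at h2
    omega
  have key := MP_1a91b9_ntX.TG.towX_K hfin hℓ h3 1
  intro n N L M _ _ _ _ _ _ _ _ _ _ _ _ hM hL W C hC _
  obtain ⟨h4, h5⟩ := key n N L M hM (ramX_sixteen hL) W C (by
    rw [hC, Int.cast_zero]) (fun h => absurd (Nat.coprime_one_left 6) h)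
  exact ⟨h4, fun hF => concl_eq (h5 hF)⟩

/-- **Theorem G3** with the explicit set of exceptional primes for `y² = x³ + 16` and `F₀ = K`. -/
theorem thmU (K₀ N₀ F₀ L₀ : Type) [Field K₀] [NumberField K₀] [Field N₀] [NumberField N₀]
    [Field F₀] [NumberField F₀] [Field L₀] [NumberField L₀] [DecidableEq L₀] [Algebra K₀ F₀]
    [Algebra N₀ F₀] [Algebra K₀ L₀] [Algebra F₀ L₀] [IsScalarTower K₀ F₀ L₀]
    (hK : finrank ℚ K₀ = 2) {J d A B : ℤ} (hJd : (J, d) ∈ jd)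
    (hd : ∃ w : K₀, w ^ 2 = ((d : ℤ) : K₀)) (hAB : 4 * A ^ 3 + 27 * B ^ 2 ≠ 0)
    (hj : 6912 * A ^ 3 = J * (4 * A ^ 3 + 27 * B ^ 2))
    (hN : IntermediateField.adjoin N₀ (Set.range (algebraMap K₀ F₀)) = ⊤) (x y : L₀)
    (hxy : (⟨0, 0, 0, ((A : ℤ) : L₀), ((B : ℤ) : L₀)⟩ :
      WeierstrassCurve L₀).toAffine.Nonsingular x y)
    (ht : IsOfFinAddOrder (Affine.Point.some x y hxy))
    (hL₀ : IntermediateField.adjoin K₀ {x, y} = ⊤)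
    (hr : ¬ (finrank K₀ F₀).Coprime (if d = -3 then 6 else 2) → RamD A B d K₀ F₀)
    (hg : ¬ (A = 0 ∧ B = 16 ∧ finrank K₀ F₀ = 1) → ∃ g : ℂ → ℂ, Differentiable ℂ g ∧
      (∀ s : ℂ, 3 / 2 < s.re →
      g s = (⟨0, 0, 0, ((A : ℤ) : N₀), ((B : ℤ) : N₀)⟩ : WeierstrassCurve N₀).LSeries s) ∧
      g 1 ≠ 0) :
    ∃ S : Finset ℕ, (A = 0 ∧ B = 16 ∧ finrank K₀ F₀ = 1 → S = {3}) ∧ ∀ ℓ : ℕ, ℓ.Prime → ℓ ∉ S →
      TowD ℓ A B d (6 * (4 * A ^ 3 + 27 * B ^ 2)) (finrank K₀ F₀) F₀ := by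
  by_cases h : A = 0 ∧ B = 16 ∧ finrank K₀ F₀ = 1
  · obtain ⟨hA, hB, h1⟩ := h
    subst hA
    subst hB
    refine ⟨{3}, fun _ => rfl, fun ℓ hℓ hS => ?_⟩
    have h3 : ℓ ≠ 3 := by
      rintro rfl
      exact hS (Finset.mem_singleton_self 3)
    have hJ : J = 0 := by
      rcases mul_eq_zero.mp (hj.symm.trans (by norm_num)) with h3 | h3
      · exact h3
      · exact absurd h3 hAB
    have hd3 : d = -3 := by
      subst hJ
      simp only [jd, List.mem_cons, Prod.mk.injEq, List.not_mem_nil, or_false] at hJd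
      norm_num at hJd
      exact hJd
    subst hd3
    rw [h1]
    exact towD_sixteen hK hd h1 hℓ h3
  · have hc : 6 * (4 * A ^ 3 + 27 * B ^ 2) ≠ 0 := mul_ne_zero (by norm_num) hAB
    obtain ⟨S, hS⟩ := thmG K₀ N₀ F₀ L₀ hK hJd hd hAB hj hc hN x y hxy ht hL₀ hr (hg h)
    exact ⟨S, fun h' => absurd h' h, hS⟩

end Pool.Agent.Lib.MP_1a91b9_nuX.UF
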